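import Pool.Agent.H603GI.Defs
import Pool.Agent.H333R2.Col.Defs

/-!
# The algorithm: the Weisfeiler-Leman algorithm for tuples

States are pairs of a Boolean (which of the two graphs) and a list of `m` vertices.
-/

namespace Pool.Agent.H603GI

open Pool.Agent.H622R2 Pool.Agent.H333R2.Col

/-- A state. -/
abbrev WSt := Bool × List ℕ

/-- Adjacency test in the chosen graph. -/
def adjG (M N : List (List Bool)) (g : Bool) (u v : ℕ) : Bool :=
  if g = true then adjB N u v else adjB M u v

/-- All states. -/
def sts (n m : ℕ) : List WSt :=
  [false, true].flatMap fun g => (tuples (List.range n) m).map fun x => (g, x)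

/-- Replace the entry `c` by `u`. -/
def upd (x : List ℕ) (c u : ℕ) : List ℕ :=
  x.zipIdx.map fun q => if q.2 = c then u else q.1

/-- The two states have the same atomic type. -/
def atom (M N : List (List Bool)) (m : ℕ) (s t : WSt) : Bool :=
  (List.range m).all fun a => (List.range m).all fun b =>
    decide (decide (s.2.getD a 0 = s.2.getD b 0) = decide (t.2.getD a 0 = t.2.getD b 0)) &&
    decide (adjG M N s.1 (s.2.getD a 0) (s.2.getD b 0) =
      adjG M N t.1 (t.2.getD a 0) (t.2.getD b 0))

/-- The initial relation, as a list of pairs. -/
def rel0 (M N : List (List Bool)) (n m : ℕ) : List (WSt × WSt) :=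
  ((sts n m).flatMap fun s => (sts n m).map fun t => (s, t)).filter fun p =>
    atom M N m p.1 p.2

/-- The number of vertices which lead from `s` to a state related to `z`. -/
def cnt (n : ℕ) (R : List (WSt × WSt)) (s : WSt) (c : ℕ) (z : WSt) : ℕ :=
  ((List.range n).filter fun u => decide (((s.1, upd s.2 c u), z) ∈ R)).length

/-- One round of refinement. -/
def refineStep (n m : ℕ) (R : List (WSt × WSt)) : List (WSt × WSt) :=
  R.filter fun p => (List.range m).all fun c => (sts n m).all fun z =>
    decide (cnt n R p.1 c z = cnt n R p.2 c z)

/-- The final relation. -/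
def relFin (M N : List (List Bool)) (n m : ℕ) : List (WSt × WSt) :=
  (refineStep n m)^[(rel0 M N n m).length] (rel0 M N n m)

/-- The isomorphism test. -/
def wlTest (m : ℕ) (M N : List (List Bool)) : Bool :=
  decide (M.length = N.length) && (decide (M.length = 0) ||
    (List.range M.length).any fun u =>
      decide (((false, List.replicate m 0), (true, List.replicate m u)) ∈ relFin M N M.length m))

end Pool.Agent.H603GI
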