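import Pool.Agent.H603GI.Defs

/-! # Consequences of coherence -/

set_option autoImplicit false

namespace Pool.Agent.H603GI

open Relation

section
variable {A V : Type} {T : A → V → V → A → V → V → Prop}

theorem CC.rtg_forward (hT : CC T) {r : A → V → V → Prop} (hr : Inv2 T r) {a a' : A}
    {u w u' w' : V} (h : T a u w a' u' w') (h1 : ReflTransGen (r a) u w) :
    ReflTransGen (r a') u' w' := by
  revert u' h
  induction h1 using ReflTransGen.head_induction_on with
  | refl =>
    intro u' h
    have := (hT.eq_iff h).1 rfl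
    rw [this]
  | head h2 h3 ih =>
    intro u' h
    obtain ⟨e, he⟩ := hT.ext h
    exact ReflTransGen.head ((hr (he _).1).1 h2) (ih (he _).2)

theorem CC.inv_rtg (hT : CC T) {r : A → V → V → Prop} (hr : Inv2 T r) :
    Inv2 T (fun a => ReflTransGen (r a)) := by
  intro a u w a' u' w' h
  exact ⟨fun h1 => hT.rtg_forward hr h h1, fun h1 => hT.rtg_forward hr (hT.symm h) h1⟩

theorem CC.inv_scc (hT : CC T) {r : A → V → V → Prop} (hr : Inv2 T r) :
    Inv2 T (fun a => Scc (r a)) := by
  intro a u w a' u' w' h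
  exact and_congr (hT.inv_rtg hr h) (hT.inv_rtg hr (hT.swap h))

theorem CC.scc_forward (hT : CC T) {r : A → V → V → Prop} (hr : Inv2 T r) {a a' : A}
    {u w u' w' : V} (h : T a u w a' u' w') (h1 : Scc (r a) u w) :
    Scc (r a') u' w' := (hT.inv_scc hr h).1 h1

theorem CC.lev_eq [Finite V] (hT : CC T) {r : A → V → V → Prop} (hr : Inv2 T r) {a a' : A}
    {u u' : V} (h : T a u u a' u' u') : lev (r a) u = lev (r a') u' := by
  obtain ⟨e, he⟩ := hT.ext h
  exact Nat.card_congr (e.subtypeEquiv fun z => hT.inv_rtg hr (he z).1)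

theorem lev_lt [Finite V] {r : V → V → Prop} {u w : V} (h : r u w) (hs : ¬ Scc r u w) :
    lev r w < lev r u := by
  have h1 : ({x | ReflTransGen r w x} : Set V) ⊂ {x | ReflTransGen r u x} := by
    refine ⟨fun x hx => ReflTransGen.head h hx, fun h2 => hs ⟨ReflTransGen.single h, ?_⟩⟩
    exact h2 (show u ∈ {x | ReflTransGen r u x} from ReflTransGen.refl)
  exact Set.ncard_lt_ncard h1 (Set.toFinite _)

theorem lev_scc {r : V → V → Prop} {u w : V} (h : Scc r u w) : lev r u = lev r w :=
  Nat.card_congr (Equiv.subtypeEquivRight fun _ =>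
    ⟨fun h1 => h.2.trans h1, fun h1 => h.1.trans h1⟩)

end

end Pool.Agent.H603GI

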