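import Pool.Agent.H603GI.Defs

/-!
# Gluing bijections between classes (task G, helper913)
-/

namespace Pool.Agent.H603GI

open Relation

namespace GlueAux

open Classical in
theorem sum_eq {α : Type} [Fintype α] (s : Setoid α) (S : Finset (Quotient s)) :
    ∑ u ∈ Finset.univ.filter (fun u : α => Quotient.mk s u ∈ S),
      (1 / (Nat.card {w // s.r u w} : ℚ)) = S.card := by
  rw [← Finset.sum_fiberwise_of_maps_to (s := Finset.univ.filter (fun u : α => Quotient.mk s u ∈ S))
    (t := S) (g := fun u => Quotient.mk s u) (fun u hu => (Finset.mem_filter.1 hu).2)]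
  have key : ∀ q ∈ S, ∑ u ∈ (Finset.univ.filter (fun u : α => Quotient.mk s u ∈ S)).filter
      (fun u => Quotient.mk s u = q), (1 / (Nat.card {w // s.r u w} : ℚ)) = 1 := by
    intro q hq
    have h1 : ∀ u ∈ (Finset.univ.filter (fun u : α => Quotient.mk s u ∈ S)).filter
        (fun u => Quotient.mk s u = q), (1 / (Nat.card {w // s.r u w} : ℚ)) =
        1 / (((Finset.univ.filter (fun u : α => Quotient.mk s u ∈ S)).filter
          (fun u => Quotient.mk s u = q)).card : ℚ) := by
      intro u hu
      have hu2 : Quotient.mk s u = q := (Finset.mem_filter.1 hu).2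
      congr 2
      rw [Nat.card_eq_fintype_card, Fintype.card_subtype]
      congr 1
      ext w
      simp only [Finset.mem_filter, Finset.mem_univ, true_and]
      constructor
      · intro h
        have h2 : Quotient.mk s u = Quotient.mk s w := Quotient.sound h
        rw [← h2, hu2]
        exact ⟨hq, rfl⟩
      · rintro ⟨-, h⟩
        exact Quotient.exact (hu2.trans h.symm)
    rw [Finset.sum_congr rfl h1, Finset.sum_const, nsmul_eq_mul]
    have hne : (((Finset.univ.filter (fun u : α => Quotient.mk s u ∈ S)).filter
          (fun u => Quotient.mk s u = q)).card : ℚ) ≠ 0 := by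
      obtain ⟨u, hu⟩ := q.exists_rep
      have : u ∈ (Finset.univ.filter (fun u : α => Quotient.mk s u ∈ S)).filter
          (fun u => Quotient.mk s u = q) := by
        simp only [Finset.mem_filter, Finset.mem_univ, true_and]
        exact ⟨hu ▸ hq, hu⟩
      have h3 := Finset.card_pos.2 ⟨u, this⟩
      exact_mod_cast h3.ne'
    rw [mul_one_div, div_self hne]
  rw [Finset.sum_congr rfl key]
  simp

end GlueAux

open Classical in
theorem glue {α β : Type} [Finite α] [Finite β] (r : α → α → Prop) (r' : β → β → Prop)
    (hr : Equivalence r) (hr' : Equivalence r') (h0 : α ≃ β)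
    (g : ∀ u : α, {w // r u w} ≃ {w // r' (h0 u) w}) :
    ∃ F : α ≃ β, (∀ x y, r x y ↔ r' (F x) (F y)) ∧
      ∀ x, ∃ u, r u x ∧ ∀ y (hy : r u y), F y = (g u ⟨y, hy⟩).1 := by
  have := Fintype.ofFinite α
  have := Fintype.ofFinite β
  let s : Setoid α := ⟨r, hr⟩
  let s' : Setoid β := ⟨r', hr'⟩
  let t : Quotient s → Finset (Quotient s') := fun q =>
    (Finset.univ.filter (fun u : α => Quotient.mk s u = q)).image (fun u => Quotient.mk s' (h0 u))
  have hcard : ∀ u, Nat.card {w // s.r u w} = Nat.card {w // s'.r (h0 u) w} :=
    fun u => Nat.card_congr (g u)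
  have hall : ∀ S : Finset (Quotient s), S.card ≤ (S.biUnion t).card := by
    intro S
    have h1 := GlueAux.sum_eq s S
    have h2 := GlueAux.sum_eq s' (S.biUnion t)
    have h3 : ∑ u ∈ Finset.univ.filter (fun u : α => Quotient.mk s u ∈ S),
        (1 / (Nat.card {w // s.r u w} : ℚ)) ≤
        ∑ v ∈ Finset.univ.filter (fun v : β => Quotient.mk s' v ∈ S.biUnion t),
        (1 / (Nat.card {w // s'.r v w} : ℚ)) := by
      calc ∑ u ∈ Finset.univ.filter (fun u : α => Quotient.mk s u ∈ S),
          (1 / (Nat.card {w // s.r u w} : ℚ))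
          = ∑ u ∈ Finset.univ.filter (fun u : α => Quotient.mk s u ∈ S),
          (1 / (Nat.card {w // s'.r (h0 u) w} : ℚ)) :=
            Finset.sum_congr rfl fun u _ => by rw [hcard u]
        _ = ∑ v ∈ (Finset.univ.filter (fun u : α => Quotient.mk s u ∈ S)).map h0.toEmbedding,
          (1 / (Nat.card {w // s'.r v w} : ℚ)) := by
            rw [Finset.sum_map]
            rfl
        _ ≤ _ := by
            apply Finset.sum_le_sum_of_subset_of_nonneg
            · intro v hv
              rw [Finset.mem_map] at hv
              obtain ⟨u, hu, rfl⟩ := hv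
              rw [Finset.mem_filter] at hu ⊢
              refine ⟨Finset.mem_univ _, ?_⟩
              rw [Finset.mem_biUnion]
              refine ⟨Quotient.mk s u, hu.2, ?_⟩
              show _ ∈ Finset.image _ _
              rw [Finset.mem_image]
              exact ⟨u, by simp, rfl⟩
            · intro v _ _
              positivity
    rw [h1, h2] at h3
    exact_mod_cast h3
  obtain ⟨π, hπ, hπt⟩ := (Finset.all_card_le_biUnion_card_iff_exists_injective t).1 hall
  choose U hU1 hU2 using fun q => Finset.mem_image.1 (hπt q)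
  have hU1' : ∀ q, Quotient.mk s (U q) = q := fun q => (Finset.mem_filter.1 (hU1 q)).2
  let φ : (q : Quotient s) → (y : α) → Quotient.mk s y = q → β := fun q y hy =>
    (g (U q) ⟨y, Quotient.exact ((hU1' q).trans hy.symm)⟩).1
  have hφ1 : ∀ q y hy, Quotient.mk s' (φ q y hy) = π q := by
    intro q y hy
    rw [← hU2 q]
    symm
    exact Quotient.sound (g (U q) ⟨y, Quotient.exact ((hU1' q).trans hy.symm)⟩).2
  let f : α → β := fun y => φ (Quotient.mk s y) y rfl
  have hf : ∀ q y (hy : Quotient.mk s y = q), f y = φ q y hy := by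
    intro q y hy
    subst hy
    rfl
  have hfq : ∀ y, Quotient.mk s' (f y) = π (Quotient.mk s y) := fun y => hφ1 _ y rfl
  have hinj : Function.Injective f := by
    intro y y' h
    have h1 : Quotient.mk s y = Quotient.mk s y' := by
      apply hπ
      rw [← hfq, ← hfq, h]
    have h2 := hf (Quotient.mk s y') y h1
    have h3 := hf (Quotient.mk s y') y' rfl
    rw [h2, h3] at h
    have h4 := (g (U (Quotient.mk s y'))).injective (Subtype.ext h)
    exact congrArg Subtype.val h4
  have hbij : Function.Bijective f :=
    (Fintype.bijective_iff_injective_and_card f).2 ⟨hinj, Fintype.card_congr h0⟩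
  refine ⟨Equiv.ofBijective f hbij, ?_, ?_⟩
  · intro x y
    show r x y ↔ r' (f x) (f y)
    constructor
    · intro h
      have h1 : Quotient.mk s x = Quotient.mk s y := Quotient.sound h
      have h2 : Quotient.mk s' (f x) = Quotient.mk s' (f y) := by rw [hfq, hfq, h1]
      exact Quotient.exact h2
    · intro h
      have h2 : Quotient.mk s' (f x) = Quotient.mk s' (f y) := Quotient.sound h
      rw [hfq, hfq] at h2
      exact Quotient.exact (hπ h2)
  · intro x
    refine ⟨U (Quotient.mk s x), Quotient.exact (hU1' _), fun y hy => ?_⟩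
    have h1 : Quotient.mk s y = Quotient.mk s x := by
      rw [← hU1' (Quotient.mk s x)]
      exact (Quotient.sound hy).symm
    show f y = _
    rw [hf _ y h1]

end Pool.Agent.H603GI
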