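import Pool.Agent.H603GI.Defs
import Pool.Agent.H603GI.Coh
import Pool.Agent.H603GI.Glue

/-!
# Assembly of the components of the two sides of a cut
-/

namespace Pool.Agent.H603GI

open Relation

namespace Asm

theorem scc_equiv {V : Type} (r : V → V → Prop) : Equivalence (Scc r) :=
  ⟨fun _ => ⟨ReflTransGen.refl, ReflTransGen.refl⟩, fun h => ⟨h.2, h.1⟩,
    fun h h' => ⟨h.1.trans h'.1, h'.2.trans h.2⟩⟩

theorem rtg_mem {V : Type} {r : V → V → Prop} {X : Set V} (g : ∀ u w, u ∈ X → r u w → w ∈ X)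
    {u w : V} (hu : u ∈ X) (h : ReflTransGen r u w) : w ∈ X := by
  induction h with
  | refl => exact hu
  | tail _ h ih => exact g _ _ ih h

theorem ClsIso.symm {A V : Type} {K : ℕ} {E r : A → V → V → Prop} {Rp N : A → V → Fin K → Prop}
    {ess : Fin K → Prop} {a a' : A} {u u' : V} (h : ClsIso E r Rp N ess a u a' u') :
    ClsIso E r Rp N ess a' u' a u := by
  obtain ⟨f, h1, h2, h3⟩ := h
  refine ⟨f.symm, fun x y => ?_, fun x l => ?_, fun x l hl => ?_⟩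
  · rw [h1, Equiv.apply_symm_apply, Equiv.apply_symm_apply]
  · rw [h2, Equiv.apply_symm_apply]
  · rw [h3 _ _ hl, Equiv.apply_symm_apply]

theorem ClsIso.trans {A V : Type} {K : ℕ} {E r : A → V → V → Prop} {Rp N : A → V → Fin K → Prop}
    {ess : Fin K → Prop} {a a' a'' : A} {u u' u'' : V} (h : ClsIso E r Rp N ess a u a' u')
    (h' : ClsIso E r Rp N ess a' u' a'' u'') : ClsIso E r Rp N ess a u a'' u'' := by
  obtain ⟨f, h1, h2, h3⟩ := h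
  obtain ⟨f', h1', h2', h3'⟩ := h'
  refine ⟨f.trans f', fun x y => ?_, fun x l => ?_, fun x l hl => ?_⟩
  · rw [h1, h1']; rfl
  · rw [h2, h2']; rfl
  · rw [h3 _ _ hl, h3' _ _ hl]; rfl

/-- the bijection between two sets of classes -/
theorem side_glue {A V : Type} {K : ℕ} [Finite V] {T : A → V → V → A → V → V → Prop} (hT : CC T)
    {E : A → V → V → Prop} (hEs : ∀ a u w, E a u w ↔ E a w u) (hEi : ∀ a u, ¬ E a u u)
    {r : A → V → V → Prop} {Rp N : A → V → Fin K → Prop} (s : Side T E r Rp N)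
    {a a' : A} {P P' : Set V}
    (hP : ∀ u w, u ∈ P → Scc (r a) u w → w ∈ P) (hP' : ∀ u w, u ∈ P' → Scc (r a') u w → w ∈ P')
    (h0 : V ≃ V) (h0T : ∀ y, T a y y a' (h0 y) (h0 y)) (h0P : ∀ y, y ∈ P ↔ h0 y ∈ P')
    {ess : Fin K → Prop} (hess : ∀ u ∈ P, ∃ l, Rp a u l ∧ ess l)
    (hI : ∀ u ∈ P, ClsIso E r Rp N ess a u a' (h0 u)) :
    ∃ F : P ≃ P', (∀ x y, E a x.1 y.1 ↔ E a' (F x).1 (F y).1) ∧
      (∀ x l, Rp a x.1 l ↔ Rp a' (F x).1 l) ∧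
      (∀ x l, ess l → (N a x.1 l ↔ N a' (F x).1 l)) := by
  classical
  choose f f1 f2 f3 using hI
  let h0P' : P ≃ P' := h0.subtypeEquiv h0P
  -- restrict the bijections to the sets
  let g : ∀ u : P, {w : P // Scc (r a) u.1 w.1} ≃ {w : P' // Scc (r a') (h0P' u).1 w.1} :=
    fun u =>
    { toFun := fun w => ⟨⟨(f u.1 u.2 ⟨w.1.1, w.2⟩).1,
        hP' _ _ (h0P' u).2 (f u.1 u.2 ⟨w.1.1, w.2⟩).2⟩, (f u.1 u.2 ⟨w.1.1, w.2⟩).2⟩
      invFun := fun w => ⟨⟨((f u.1 u.2).symm ⟨w.1.1, w.2⟩).1,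
        hP _ _ u.2 ((f u.1 u.2).symm ⟨w.1.1, w.2⟩).2⟩, ((f u.1 u.2).symm ⟨w.1.1, w.2⟩).2⟩
      left_inv := by
        intro w
        apply Subtype.ext
        apply Subtype.ext
        have h := congrArg Subtype.val ((f u.1 u.2).symm_apply_apply ⟨w.1.1, w.2⟩)
        exact h
      right_inv := by
        intro w
        apply Subtype.ext
        apply Subtype.ext
        have h := congrArg Subtype.val ((f u.1 u.2).apply_symm_apply ⟨w.1.1, w.2⟩)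
        exact h }
  have e1 : Equivalence (fun x y : P => Scc (r a) x.1 y.1) :=
    ⟨fun x => (scc_equiv _).refl _, fun h => (scc_equiv _).symm h,
      fun h h' => (scc_equiv _).trans h h'⟩
  have e2 : Equivalence (fun x y : P' => Scc (r a') x.1 y.1) :=
    ⟨fun x => (scc_equiv _).refl _, fun h => (scc_equiv _).symm h,
      fun h h' => (scc_equiv _).trans h h'⟩
  obtain ⟨F, hF1, hF2⟩ := glue _ _ e1 e2 h0P' g
  have hgval : ∀ (u : P) (y : P) (hy : Scc (r a) u.1 y.1),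
      ((g u ⟨y, hy⟩).1 : V) = (f u.1 u.2 ⟨y.1, hy⟩).1 := fun _ _ _ => rfl
  -- the labels
  have hRp : ∀ x l, Rp a x.1 l ↔ Rp a' (F x).1 l := by
    intro x l
    obtain ⟨u, hu, hFu⟩ := hF2 x
    rw [hFu x hu, hgval]
    exact f2 u.1 u.2 ⟨x.1, hu⟩ l
  have hN : ∀ x l, ess l → (N a x.1 l ↔ N a' (F x).1 l) := by
    intro x l hl
    obtain ⟨u, hu, hFu⟩ := hF2 x
    rw [hFu x hu, hgval]
    exact f3 u.1 u.2 ⟨x.1, hu⟩ l hl
  have hlev : ∀ x : P, lev (r a) x.1 = lev (r a') (F x).1 := by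
    intro x
    obtain ⟨u, hu, hFu⟩ := hF2 x
    have h1 : Scc (r a') (h0P' u).1 (F x).1 := by
      rw [hFu x hu]
      exact (g u ⟨x, hu⟩).2
    rw [← lev_scc hu, ← lev_scc h1]
    exact hT.lev_eq s.inv_r (h0T u.1)
  have hne : ∀ x y : P, x ≠ y → (F x).1 ≠ (F y).1 := by
    intro x y hxy h
    exact hxy (F.injective (Subtype.ext h))
  -- one half of the preservation of edges in different classes
  have half : ∀ x y : P, ¬ Scc (r a) x.1 y.1 → lev (r a) x.1 ≤ lev (r a) y.1 →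
      (E a x.1 y.1 ↔ E a' (F x).1 (F y).1) := by
    intro x y hxy hle
    have hxy' : ¬ Scc (r a') (F x).1 (F y).1 := fun h => hxy ((hF1 x y).2 h)
    have hnxy : x ≠ y := by
      rintro rfl
      exact hxy ((scc_equiv _).refl _)
    have n1 : ¬ r a x.1 y.1 := by
      intro h
      have := lev_lt h hxy
      omega
    have n2 : ¬ r a' (F x).1 (F y).1 := by
      intro h
      have h1 := lev_lt h hxy'
      rw [← hlev, ← hlev] at h1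
      omega
    obtain ⟨l, hl, hle⟩ := hess x.1 x.2
    rw [s.formula (fun h => hnxy (Subtype.ext h)) n1 hl,
      s.formula (hne x y hnxy) n2 ((hRp x l).1 hl)]
    exact hN y l hle
  refine ⟨F, fun x y => ?_, hRp, hN⟩
  by_cases hxy : Scc (r a) x.1 y.1
  · obtain ⟨u, hu, hFu⟩ := hF2 x
    have hu' : Scc (r a) u.1 y.1 := (scc_equiv _).trans hu hxy
    rw [hFu x hu, hFu y hu', hgval, hgval]
    exact f1 u.1 u.2 ⟨x.1, hu⟩ ⟨y.1, hu'⟩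
  · rcases le_total (lev (r a) x.1) (lev (r a) y.1) with h | h
    · exact half x y hxy h
    · rw [hEs a x.1 y.1, hEs a' (F x).1 (F y).1]
      exact half y x (fun h' => hxy ((scc_equiv _).symm h')) h

/-- union of two bijections -/
theorem union_equiv {V : Type} {C C' : V → Prop} {S S' D D' : Set V}
    (hC : ∀ u, C u ↔ u ∈ S ∨ u ∈ D) (hC' : ∀ u, C' u ↔ u ∈ S' ∨ u ∈ D')
    (hd : ∀ u, u ∈ D → u ∉ S) (hd' : ∀ u, u ∈ D' → u ∉ S') (F₁ : S ≃ S') (F₂ : D ≃ D') :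
    ∃ f : {u // C u} ≃ {u // C' u}, (∀ x (h : x.1 ∈ S), (f x).1 = (F₁ ⟨x.1, h⟩).1) ∧
      (∀ x (h : x.1 ∈ D), (f x).1 = (F₂ ⟨x.1, h⟩).1) := by
  classical
  let φ : {u // C u} → {u // C' u} := fun x =>
    if h : x.1 ∈ S then ⟨(F₁ ⟨x.1, h⟩).1, (hC' _).2 (Or.inl (F₁ ⟨x.1, h⟩).2)⟩
    else ⟨(F₂ ⟨x.1, ((hC _).1 x.2).resolve_left h⟩).1,
      (hC' _).2 (Or.inr (F₂ ⟨x.1, ((hC _).1 x.2).resolve_left h⟩).2)⟩
  have hφ1 : ∀ x (h : x.1 ∈ S), (φ x).1 = (F₁ ⟨x.1, h⟩).1 := by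
    intro x h
    simp only [φ, dif_pos h]
  have hφ2 : ∀ x (h : x.1 ∈ D), (φ x).1 = (F₂ ⟨x.1, h⟩).1 := by
    intro x h
    simp only [φ, dif_neg (hd _ h)]
  have hbij : Function.Bijective φ := by
    constructor
    · intro x y hxy
      have hxy' := congrArg Subtype.val hxy
      rcases (hC _).1 x.2 with hx | hx <;> rcases (hC _).1 y.2 with hy | hy
      · rw [hφ1 x hx, hφ1 y hy] at hxy'
        have h := F₁.injective (Subtype.ext hxy')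
        exact Subtype.ext (Subtype.mk.inj h)
      · rw [hφ1 x hx, hφ2 y hy] at hxy'
        have h1 := (F₁ ⟨x.1, hx⟩).2
        rw [hxy'] at h1
        exact absurd h1 (hd' _ (F₂ ⟨y.1, hy⟩).2)
      · rw [hφ2 x hx, hφ1 y hy] at hxy'
        have h1 := (F₁ ⟨y.1, hy⟩).2
        rw [← hxy'] at h1
        exact absurd h1 (hd' _ (F₂ ⟨x.1, hx⟩).2)
      · rw [hφ2 x hx, hφ2 y hy] at hxy'
        have h := F₂.injective (Subtype.ext hxy')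
        exact Subtype.ext (Subtype.mk.inj h)
    · intro y
      rcases (hC' _).1 y.2 with hy | hy
      · refine ⟨⟨(F₁.symm ⟨y.1, hy⟩).1, (hC _).2 (Or.inl (F₁.symm ⟨y.1, hy⟩).2)⟩, ?_⟩
        apply Subtype.ext
        rw [hφ1 _ (F₁.symm ⟨y.1, hy⟩).2, Subtype.coe_eta, Equiv.apply_symm_apply]
      · refine ⟨⟨(F₂.symm ⟨y.1, hy⟩).1, (hC _).2 (Or.inr (F₂.symm ⟨y.1, hy⟩).2)⟩, ?_⟩
        apply Subtype.ext
        rw [hφ2 _ (F₂.symm ⟨y.1, hy⟩).2, Subtype.coe_eta, Equiv.apply_symm_apply]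
  exact ⟨Equiv.ofBijective φ hbij, hφ1, hφ2⟩

end Asm

open Asm in
theorem assemble {A V : Type} {K : ℕ} [Finite V] {T : A → V → V → A → V → V → Prop} (hT : CC T)
    {E : A → V → V → Prop} (hE : Inv2 T E) (hEs : ∀ a u w, E a u w ↔ E a w u)
    (hEi : ∀ a u, ¬ E a u u)
    {C : A → V → Prop} (hC : Inv1 T C)
    {r₁ r₂ : A → V → V → Prop} {Rp₁ Rp₂ N₁ N₂ : A → V → Fin K → Prop}
    (s₁ : Side T E r₁ Rp₁ N₁) (s₂ : Side T E r₂ Rp₂ N₂)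
    {a a' : A} {z z' : V} (hz : T a z z a' z' z')
    {X₁ X₂ : Set V} (hd : Disjoint X₁ X₂) (hcov : ∀ u, C a u → u ∈ X₁ ∨ u ∈ X₂)
    (g₁ : ∀ u w, u ∈ X₁ → r₁ a u w → w ∈ X₁) (g₂ : ∀ u w, u ∈ X₂ → r₂ a u w → w ∈ X₂)
    (m₁ : ∀ u w, u ∈ X₁ → C a u → Scc (r₁ a) u w → C a w)
    (m₂ : ∀ u w, u ∈ X₂ → C a u → Scc (r₂ a) u w → C a w)
    (e₁ : ∀ u ∈ X₁, ∃ l, Rp₁ a u l) (e₂ : ∀ u ∈ X₂, ∃ l, Rp₂ a u l)
    {ess₁ ess₂ : Fin K → Prop} (h₁ : ∀ u ∈ X₁, ∀ l, Rp₁ a u l → ess₁ l)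
    (h₂ : ∀ u ∈ X₂, ∀ l, Rp₂ a u l → ess₂ l)
    {M : Fin K → Fin K → Prop}
    (hM : ∀ w ∈ X₂, ∀ l₂ l, ess₁ l → Rp₂ a w l₂ → (N₁ a w l ↔ M l₂ l))
    (I₁ : ∀ u ∈ X₁, C a u → ∀ b u', T a u u b u' u' → ClsIso E r₁ Rp₁ N₁ ess₁ a u b u')
    (I₂ : ∀ u ∈ X₂, C a u → ∀ b u', T a u u b u' u' → ClsIso E r₂ Rp₂ N₂ ess₂ a u b u') :
    ∃ f : {u // C a u} ≃ {u // C a' u}, (∀ x y, E a x.1 y.1 ↔ E a' (f x).1 (f y).1) ∧
      ∀ x, (((∃ y ∈ X₁, T a y y a x.1 x.1) ∧ (∃ y ∈ X₁, T a y y a' (f x).1 (f x).1) ∧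
          (∀ l, Rp₁ a x.1 l ↔ Rp₁ a' (f x).1 l) ∧
          (∀ l, ess₁ l → (N₁ a x.1 l ↔ N₁ a' (f x).1 l))) ∨
        ((∃ y ∈ X₂, T a y y a x.1 x.1) ∧ (∃ y ∈ X₂, T a y y a' (f x).1 (f x).1) ∧
          (∀ l, Rp₂ a x.1 l ↔ Rp₂ a' (f x).1 l) ∧
          (∀ l, ess₂ l → (N₂ a x.1 l ↔ N₂ a' (f x).1 l)))) := by
  classical
  -- the set of vertices that look like vertices of `X₁`
  let S : A → Set V := fun b => {u | ∃ y ∈ X₁, C a y ∧ T a y y b u u}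
  let D : A → Set V := fun b => {u | C b u ∧ u ∉ S b}
  have hSC : ∀ b u, u ∈ S b → C b u := by
    rintro b u ⟨y, -, hy, hyT⟩
    exact (hC hyT).1 hy
  -- transport of pairs
  have pair : ∀ {c b : A} {y u : V}, T c y y b u u → ∀ w, ∃ w', T c y w' b u w ∧
      T c w' w' b w w := by
    intro c b y u hyu w
    obtain ⟨h, hh⟩ := hT.ext hyu
    refine ⟨h.symm w, ?_, ?_⟩
    · have := (hh (h.symm w)).1
      rwa [Equiv.apply_symm_apply] at this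
    · have := (hh (h.symm w)).1
      rw [Equiv.apply_symm_apply] at this
      exact hT.diag (hT.swap this)
  -- S1
  have S1 : ∀ b u w, u ∈ S b → r₁ b u w → C b w → w ∈ S b := by
    rintro b u w ⟨y, hyX, hyC, hyT⟩ hr hw
    obtain ⟨w', hw1, hw2⟩ := pair hyT w
    exact ⟨w', g₁ _ _ hyX ((s₁.inv_r hw1).2 hr), (hC hw2).2 hw, hw2⟩
  -- S2
  have S2 : ∀ b u w, u ∈ S b → Scc (r₁ b) u w → w ∈ S b := by
    rintro b u w ⟨y, hyX, hyC, hyT⟩ hs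
    obtain ⟨w', hw1, hw2⟩ := pair hyT w
    have hs' : Scc (r₁ a) y w' := (hT.inv_scc s₁.inv_r hw1).2 hs
    exact ⟨w', rtg_mem g₁ hyX hs'.1, m₁ _ _ hyX hyC hs', hw2⟩
  -- transport from `a` to `a'`
  obtain ⟨h0, hh0⟩ := hT.ext hz
  have h0T : ∀ y, T a y y a' (h0 y) (h0 y) := fun y => hT.diag (hT.swap (hh0 y).1)
  have h0S : ∀ y, y ∈ S a ↔ h0 y ∈ S a' := by
    intro y
    constructor
    · rintro ⟨x, hx1, hx2, hx3⟩
      exact ⟨x, hx1, hx2, hT.trans hx3 (h0T y)⟩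
    · rintro ⟨x, hx1, hx2, hx3⟩
      exact ⟨x, hx1, hx2, hT.trans hx3 (hT.symm (h0T y))⟩
  have h0C : ∀ y, C a y ↔ C a' (h0 y) := fun y => hC (h0T y)
  have h0D : ∀ y, y ∈ D a ↔ h0 y ∈ D a' := by
    intro y
    exact and_congr (h0C y) (not_congr (h0S y))
  -- S3
  have S3a : ∀ w, w ∈ D a → w ∈ X₂ := by
    rintro w ⟨hw1, hw2⟩
    rcases hcov w hw1 with h | h
    · exact absurd ⟨w, h, hw1, hT.refl _ _ _⟩ hw2
    · exact h
  have S3' : ∀ w, w ∈ D a' → ∃ y ∈ X₂, C a y ∧ y ∉ S a ∧ T a y y a' w w := by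
    intro w hw
    have h1 : h0.symm w ∈ D a := by
      rw [h0D, Equiv.apply_symm_apply]; exact hw
    have h2 := h0T (h0.symm w)
    rw [Equiv.apply_symm_apply] at h2
    exact ⟨h0.symm w, S3a _ h1, h1.1, h1.2, h2⟩
  -- S4
  have S4 : ∀ b w w₂ y, y ∈ X₂ → C a y → y ∉ S a → T a y y b w w → Scc (r₂ b) w w₂ →
      w₂ ∈ D b := by
    intro b w w₂ y hyX hyC hyS hyT hs
    obtain ⟨y₂, hy1, hy2⟩ := pair hyT w₂
    have hs' : Scc (r₂ a) y y₂ := (hT.inv_scc s₂.inv_r hy1).2 hs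
    refine ⟨(hC hy2).1 (m₂ _ _ hyX hyC hs'), ?_⟩
    rintro ⟨x, hxX, hxC, hxT⟩
    have hx2 : T a x x a y₂ y₂ := hT.trans hxT (hT.symm hy2)
    obtain ⟨x₂, hx3, hx4⟩ := pair hx2 y
    have hs2 : Scc (r₂ a) x x₂ :=
      (hT.inv_scc s₂.inv_r hx3).2 ((scc_equiv _).symm hs')
    have hx2C : C a x₂ := (hC hx4).2 hyC
    apply hyS
    refine ⟨x₂, ?_, hx2C, hx4⟩
    rcases hcov x₂ hx2C with h | h
    · exact h
    · exact absurd (rtg_mem g₂ h hs2.2) (Set.disjoint_left.1 hd hxX)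
  have S4a : ∀ w w₂, w ∈ D a → Scc (r₂ a) w w₂ → w₂ ∈ D a := by
    intro w w₂ hw hs
    exact S4 a w w₂ w (S3a w hw) hw.1 hw.2 (hT.refl _ _ _) hs
  have S4' : ∀ w w₂, w ∈ D a' → Scc (r₂ a') w w₂ → w₂ ∈ D a' := by
    intro w w₂ hw hs
    obtain ⟨y, hy1, hy2, hy3, hy4⟩ := S3' w hw
    exact S4 a' w w₂ y hy1 hy2 hy3 hy4 hs
  -- the two parts
  have hess1 : ∀ u ∈ S a, ∃ l, Rp₁ a u l ∧ ess₁ l := by
    rintro u ⟨y, hyX, hyC, hyT⟩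
    obtain ⟨l, hl⟩ := e₁ y hyX
    exact ⟨l, (s₁.inv_Rp l hyT).1 hl, h₁ y hyX l hl⟩
  have hI1 : ∀ u ∈ S a, ClsIso E r₁ Rp₁ N₁ ess₁ a u a' (h0 u) := by
    rintro u ⟨y, hyX, hyC, hyT⟩
    exact Asm.ClsIso.trans (Asm.ClsIso.symm (I₁ y hyX hyC a u hyT))
      (I₁ y hyX hyC a' (h0 u) (hT.trans hyT (h0T u)))
  have hess2 : ∀ u ∈ D a, ∃ l, Rp₂ a u l ∧ ess₂ l := by
    intro u hu
    obtain ⟨l, hl⟩ := e₂ u (S3a u hu)
    exact ⟨l, hl, h₂ u (S3a u hu) l hl⟩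
  have hI2 : ∀ u ∈ D a, ClsIso E r₂ Rp₂ N₂ ess₂ a u a' (h0 u) := by
    intro u hu
    exact I₂ u (S3a u hu) hu.1 a' (h0 u) (h0T u)
  obtain ⟨F₁, F1E, F1R, F1N⟩ := side_glue hT hEs hEi s₁ (S2 a) (S2 a') h0 h0T h0S hess1 hI1
  obtain ⟨F₂, F2E, F2R, F2N⟩ := side_glue hT hEs hEi s₂ S4a S4' h0 h0T h0D hess2 hI2
  have hCu : ∀ b u, C b u ↔ u ∈ S b ∨ u ∈ D b := by
    intro b u
    constructor
    · intro h
      by_cases hu : u ∈ S b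
      · exact Or.inl hu
      · exact Or.inr ⟨h, hu⟩
    · rintro (h | h)
      · exact hSC b u h
      · exact h.1
  obtain ⟨f, hf1, hf2⟩ := union_equiv (hCu a) (hCu a') (fun u hu => hu.2) (fun u hu => hu.2) F₁ F₂
  -- edges between the two parts
  have mixed : ∀ x y : {u // C a u}, x.1 ∈ S a → y.1 ∈ D a →
      (E a x.1 y.1 ↔ E a' (f x).1 (f y).1) := by
    intro x y hx hy
    obtain ⟨l, hl, hle⟩ := hess1 x.1 hx
    have hfx : (f x).1 ∈ S a' := by rw [hf1 x hx]; exact (F₁ ⟨x.1, hx⟩).2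
    have hfy : (f y).1 ∈ D a' := by rw [hf2 y hy]; exact (F₂ ⟨y.1, hy⟩).2
    have n1 : x.1 ≠ y.1 := by
      intro h
      rw [← h] at hy
      exact hy.2 hx
    have n2 : (f x).1 ≠ (f y).1 := by
      intro h
      rw [← h] at hfy
      exact hfy.2 hfx
    have a1 : ¬ r₁ a x.1 y.1 := fun h => hy.2 (S1 a _ _ hx h hy.1)
    have a2 : ¬ r₁ a' (f x).1 (f y).1 := fun h => hfy.2 (S1 a' _ _ hfx h hfy.1)
    have hl' : Rp₁ a' (f x).1 l := by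
      rw [hf1 x hx]; exact (F1R ⟨x.1, hx⟩ l).1 hl
    rw [s₁.formula n1 a1 hl, s₁.formula n2 a2 hl']
    obtain ⟨l₂, hl₂, -⟩ := hess2 y.1 hy
    have hl₂' : Rp₂ a' (f y).1 l₂ := by
      rw [hf2 y hy]; exact (F2R ⟨y.1, hy⟩ l₂).1 hl₂
    obtain ⟨w, hw1, hw2, hw3, hw4⟩ := S3' _ hfy
    have h5 : N₁ a w l ↔ N₁ a' (f y).1 l := s₁.inv_N l hw4
    have h6 : Rp₂ a w l₂ ↔ Rp₂ a' (f y).1 l₂ := s₂.inv_Rp l₂ hw4
    rw [hM y.1 (S3a _ hy) l₂ l hle hl₂, ← h5, hM w hw1 l₂ l hle (h6.2 hl₂')]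
  refine ⟨f, fun x y => ?_, fun x => ?_⟩
  · rcases (hCu a _).1 x.2 with hx | hx <;> rcases (hCu a _).1 y.2 with hy | hy
    · rw [hf1 x hx, hf1 y hy]
      exact F1E ⟨x.1, hx⟩ ⟨y.1, hy⟩
    · exact mixed x y hx hy
    · rw [hEs a x.1 y.1, hEs a' (f x).1 (f y).1]
      exact mixed y x hy hx
    · rw [hf2 x hx, hf2 y hy]
      exact F2E ⟨x.1, hx⟩ ⟨y.1, hy⟩
  · rcases (hCu a _).1 x.2 with hx | hx
    · left
      have hfx : (f x).1 ∈ S a' := by rw [hf1 x hx]; exact (F₁ ⟨x.1, hx⟩).2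
      refine ⟨?_, ?_, ?_, ?_⟩
      · obtain ⟨y, hy1, -, hy2⟩ := hx
        exact ⟨y, hy1, hy2⟩
      · obtain ⟨y, hy1, -, hy2⟩ := hfx
        exact ⟨y, hy1, hy2⟩
      · rw [hf1 x hx]; exact F1R ⟨x.1, hx⟩
      · rw [hf1 x hx]; exact F1N ⟨x.1, hx⟩
    · right
      have hfx : (f x).1 ∈ D a' := by rw [hf2 x hx]; exact (F₂ ⟨x.1, hx⟩).2
      refine ⟨⟨x.1, S3a _ hx, hT.refl _ _ _⟩, ?_, ?_, ?_⟩
      · obtain ⟨y, hy1, -, -, hy2⟩ := S3' _ hfx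
        exact ⟨y, hy1, hy2⟩
      · rw [hf2 x hx]; exact F2R ⟨x.1, hx⟩
      · rw [hf2 x hx]; exact F2N ⟨x.1, hx⟩

end Pool.Agent.H603GI
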