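import Pool.Agent.H603GI.Defs

/-!
# Basic properties of relations computed by the Weisfeiler-Leman algorithm
-/

namespace Pool.Agent.H603GI

open Relation

section
variable {ι V : Type} {E : ι → V → V → Prop} {m : ℕ}
  {Q : ι → (Fin m → V) → ι → (Fin m → V) → Prop}

theorem Eqv.comp {α β : Type} {i j : ι} {x y : α → V} (h : Eqv Q i x j y) (τ : β → α) :
    Eqv Q i (x ∘ τ) j (y ∘ τ) := fun σ => h (τ ∘ σ)

theorem Eqv.adj_iff (hQ : WL E m Q) (hm : 2 ≤ m) {α : Type} {i j : ι} {x y : α → V}
    (h : Eqv Q i x j y) (a b : α) : E i (x a) (x b) ↔ E j (y a) (y b) := by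
  have h1 := hQ.adj_iff (h (fun t : Fin m => if t.val = 0 then a else b))
    ⟨0, by omega⟩ ⟨1, by omega⟩
  simpa using h1

theorem Eqv.eq_iff (hQ : WL E m Q) (hm : 2 ≤ m) {α : Type} {i j : ι} {x y : α → V}
    (h : Eqv Q i x j y) (a b : α) : x a = x b ↔ y a = y b := by
  have h1 := hQ.eq_iff (h (fun t : Fin m => if t.val = 0 then a else b))
    ⟨0, by omega⟩ ⟨1, by omega⟩
  simpa using h1

theorem Eqv.ext (hQ : WL E m Q) {α : Type} [Fintype α] [Nonempty α] (hm : Fintype.card α < m)
    {i j : ι} {x y : α → V} (h : Eqv Q i x j y) :
    ∃ e : V ≃ V, ∀ u, Eqv Q i (cons x u) j (cons y (e u)) := by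
  classical
  obtain ⟨a0⟩ := ‹Nonempty α›
  let e := Fintype.equivFin α
  let sb : Fin m → α := fun t =>
    if ht : t.val < Fintype.card α then e.symm ⟨t.val, ht⟩ else a0
  let c : Fin m := ⟨Fintype.card α, hm⟩
  obtain ⟨g, hg⟩ := hQ.ext (h sb) c
  refine ⟨g, fun u s => ?_⟩
  let τ : Fin m → Fin m := fun t =>
    match s t with
    | none => c
    | some a => ⟨(e a).val, (e a).isLt.trans hm⟩
  have key : ∀ (x' : α → V) (u' : V), cons x' u' ∘ s = Function.update (x' ∘ sb) c u' ∘ τ := by
    intro x' u'
    funext t
    show cons x' u' (s t) = Function.update (x' ∘ sb) c u' (τ t)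
    rcases hs : s t with _ | a
    · have : τ t = c := by simp only [τ, hs]
      rw [this, Function.update_self]
      rfl
    · have h1 : τ t = ⟨(e a).val, (e a).isLt.trans hm⟩ := by simp only [τ, hs]
      have h2 : τ t ≠ c := by
        rw [h1]
        intro hc
        have := congrArg Fin.val hc
        have h3 := (e a).isLt
        simp only [c] at this
        omega
      rw [Function.update_of_ne h2, h1]
      show x' a = x' (sb _)
      congr 1
      simp only [sb]
      rw [dif_pos (e a).isLt]
      simp
  rw [key x u, key y (g u)]
  exact hQ.subst (hg u) τ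

theorem Eqv.symm (hQ : WL E m Q) {α : Type} {i j : ι} {x y : α → V} (h : Eqv Q i x j y) :
    Eqv Q j y i x := fun σ => hQ.symm (h σ)

theorem Eqv.trans (hQ : WL E m Q) {α : Type} {i j k : ι} {x y z : α → V} (h : Eqv Q i x j y)
    (h' : Eqv Q j y k z) : Eqv Q i x k z := fun σ => hQ.trans (h σ) (h' σ)

/-- extension by several entries -/
theorem Eqv.extend (hQ : WL E m Q) {α β : Type} [Fintype α] [Nonempty α] [Fintype β]
    (hm : Fintype.card α + Fintype.card β ≤ m) {i j : ι} {x y : α → V} (h : Eqv Q i x j y)
    (z : β → V) : ∃ z' : β → V, Eqv Q i (Sum.elim x z) j (Sum.elim y z') := by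
  classical
  have key : ∀ (n : ℕ), Fintype.card α + n ≤ m → ∀ z : Fin n → V,
      ∃ z' : Fin n → V, Eqv Q i (Sum.elim x z) j (Sum.elim y z') := by
    intro n
    induction n with
    | zero =>
      intro _ z
      refine ⟨fun t => t.elim0, ?_⟩
      have h1 := h.comp (Sum.elim id (fun t : Fin 0 => t.elim0) : α ⊕ Fin 0 → α)
      have e1 : ∀ (x' : α → V) (z' : Fin 0 → V), Sum.elim x' z'
          = x' ∘ (Sum.elim id (fun t : Fin 0 => t.elim0) : α ⊕ Fin 0 → α) := by
        intro x' z'
        funext o
        rcases o with a | t
        · rfl
        · exact t.elim0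
      rw [e1 x z, e1 y]
      exact h1
    | succ n ih =>
      intro hn z
      obtain ⟨z0, hz0⟩ := ih (by omega) (fun t => z t.castSucc)
      have hc : Fintype.card (α ⊕ Fin n) < m := by
        rw [Fintype.card_sum, Fintype.card_fin]
        omega
      obtain ⟨e, he⟩ := Eqv.ext hQ hc hz0
      have h1 := he (z (Fin.last n))
      refine ⟨Fin.snoc (α := fun _ => V) z0 (e (z (Fin.last n))), ?_⟩
      let τ : α ⊕ Fin (n + 1) → Option (α ⊕ Fin n) := Sum.elim (fun a => some (Sum.inl a))
        (fun t => if ht : t.val < n then some (Sum.inr ⟨t.val, ht⟩) else none)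
      have e1 : ∀ (x' : α → V) (z' : Fin n → V) (u : V),
          Sum.elim x' (Fin.snoc (α := fun _ => V) z' u) = cons (Sum.elim x' z') u ∘ τ := by
        intro x' z' u
        funext o
        rcases o with a | t
        · rfl
        · show Fin.snoc (α := fun _ => V) z' u t = cons (Sum.elim x' z') u (τ (Sum.inr t))
          by_cases ht : t.val < n
          · have h2 : τ (Sum.inr t) = some (Sum.inr ⟨t.val, ht⟩) := by
              simp only [τ, Sum.elim_inr, dif_pos ht]
            rw [h2]
            simp only [Fin.snoc, ht, dite_true]
            rfl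
          · have h2 : τ (Sum.inr t) = none := by
              simp only [τ, Sum.elim_inr, dif_neg ht]
            rw [h2]
            simp only [Fin.snoc, ht, dite_false]
            rfl
      have e2 : z = Fin.snoc (α := fun _ => V) (fun t : Fin n => z t.castSucc) (z (Fin.last n)) :=
        (Fin.snoc_init_self z).symm
      rw [e2, e1, e1]
      have h3 := h1.comp τ
      simpa using h3
  obtain ⟨z0, hz0⟩ := key (Fintype.card β) hm (z ∘ (Fintype.equivFin β).symm)
  refine ⟨z0 ∘ Fintype.equivFin β, ?_⟩
  have h1 := hz0.comp (Sum.map id (Fintype.equivFin β) : α ⊕ β → α ⊕ Fin (Fintype.card β))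
  have e1 : Sum.elim x z = Sum.elim x (z ∘ (Fintype.equivFin β).symm)
      ∘ (Sum.map id (Fintype.equivFin β) : α ⊕ β → α ⊕ Fin (Fintype.card β)) := by
    funext o
    rcases o with a | b
    · rfl
    · simp
  have e2 : Sum.elim y (z0 ∘ Fintype.equivFin β) = Sum.elim y z0
      ∘ (Sum.map id (Fintype.equivFin β) : α ⊕ β → α ⊕ Fin (Fintype.card β)) := by
    funext o
    rcases o with a | b
    · rfl
    · rfl
  rw [e1, e2]
  exact h1

/-- the two-dimensional relation over bases `(i, P)` with `P : α → V` -/
theorem cc_of_wl (hQ : WL E m Q) {α : Type} [Fintype α] [Nonempty α]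
    (hm : Fintype.card α + 2 < m) :
    CC (fun (a : ι × (α → V)) u w (a' : ι × (α → V)) u' w' =>
      Eqv Q a.1 (cons (cons a.2 u) w) a'.1 (cons (cons a'.2 u') w')) where
  refl := fun a u w σ => hQ.refl _ _
  symm := fun h => Eqv.symm hQ h
  trans := fun h h' => Eqv.trans hQ h h'
  swap := by
    intro a u w a' u' w' h
    have h1 := h.comp (fun o : Option (Option α) => match o with
      | none => some none
      | some none => none
      | some (some t) => some (some t))
    have e1 : ∀ (p : α → V) (s t : V), cons (cons p t) s = cons (cons p s) t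
        ∘ (fun o : Option (Option α) => match o with
          | none => some none
          | some none => none
          | some (some t) => some (some t)) := by
      intro p s t
      funext o
      rcases o with _ | _ | o <;> rfl
    show Eqv Q a.1 (cons (cons a.2 w) u) a'.1 (cons (cons a'.2 w') u')
    rw [e1 a.2 u w, e1 a'.2 u' w']
    exact h1
  diag := by
    intro a u w a' u' w' h
    have h1 := h.comp (fun o : Option (Option α) => match o with
      | none => some none
      | some none => some none
      | some (some t) => some (some t))
    have e1 : ∀ (p : α → V) (s t : V), cons (cons p s) s = cons (cons p s) t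
        ∘ (fun o : Option (Option α) => match o with
          | none => some none
          | some none => some none
          | some (some t) => some (some t)) := by
      intro p s t
      funext o
      rcases o with _ | _ | o <;> rfl
    show Eqv Q a.1 (cons (cons a.2 u) u) a'.1 (cons (cons a'.2 u') u')
    rw [e1 a.2 u w, e1 a'.2 u' w']
    exact h1
  eq_iff := by
    intro a u w a' u' w' h
    exact Eqv.eq_iff hQ (by omega) h (some none) none
  ext := by
    intro a u w a' u' w' h
    have hc : Fintype.card (Option (Option α)) < m := by
      rw [Fintype.card_option, Fintype.card_option]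
      omega
    obtain ⟨e, he⟩ := Eqv.ext hQ hc h
    refine ⟨e, fun z => ⟨?_, ?_⟩⟩
    · have h1 := (he z).comp (fun o : Option (Option α) =>
        (match o with
          | none => none
          | some none => some (some none)
          | some (some t) => some (some (some t)) : Option (Option (Option α))))
      have e1 : ∀ (p : α → V) (s t r : V), cons (cons p s) r = cons (cons (cons p s) t) r
          ∘ (fun o : Option (Option α) =>
            (match o with
              | none => none
              | some none => some (some none)
              | some (some t) => some (some (some t)) : Option (Option (Option α)))) := by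
        intro p s t r
        funext o
        rcases o with _ | _ | o <;> rfl
      show Eqv Q a.1 (cons (cons a.2 u) z) a'.1 (cons (cons a'.2 u') (e z))
      rw [e1 a.2 u w z, e1 a'.2 u' w' (e z)]
      exact h1
    · have h1 := (he z).comp (fun o : Option (Option α) =>
        (match o with
          | none => some none
          | some none => none
          | some (some t) => some (some (some t)) : Option (Option (Option α))))
      have e1 : ∀ (p : α → V) (s t r : V), cons (cons p r) t = cons (cons (cons p s) t) r
          ∘ (fun o : Option (Option α) =>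
            (match o with
              | none => some none
              | some none => none
              | some (some t) => some (some (some t)) : Option (Option (Option α)))) := by
        intro p s t r
        funext o
        rcases o with _ | _ | o <;> rfl
      show Eqv Q a.1 (cons (cons a.2 z) w) a'.1 (cons (cons a'.2 (e z)) w')
      rw [e1 a.2 u w z, e1 a'.2 u' w' (e z)]
      exact h1

end

end Pool.Agent.H603GI
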