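import Pool.Agent.H603GI.Core
import Pool.Agent.H73R2.Et.Main
import Pool.Agent.H175R2.XFinal

/-!
# Decompositions of chordal bipartite graphs without `E_t` and of graphs with a forbidden contraction
-/

namespace Pool.Agent.H603GI

theorem dec_of_cliqueWidth' {V : Type} [Finite V] {G : SimpleGraph V} {c : ℕ}
    (h : Pool.Agent.H175R2.cliqueWidth G ≤ c) : IsEmpty V ∨ Dec c G.Adj Set.univ := by
  refine dec_of_cliqueWidth (le_trans ?_ h)
  rcases isEmpty_or_nonempty V with hV | hV
  · have h1 : ∀ k, ¬ Pool.Agent.Helper856.Cw.CwLE G k := by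
      intro k hk
      obtain ⟨v, _⟩ := (dec_of_cwLE hk).2.nonempty
      exact hV.false v
    have h2 : {k | Pool.Agent.Helper856.Cw.CwLE G k} = ∅ := by
      ext k
      simp only [Set.mem_setOf_eq, Set.mem_empty_iff_false, iff_false]
      exact h1 k
    unfold Pool.Agent.Helper856.Cw.cliqueWidth
    rw [h2, Nat.sInf_empty]
    exact Nat.zero_le _
  · obtain ⟨k, hk⟩ := Pool.Agent.Helper856.Lcw.exists_lcwLE G
    have conv : ∀ k, Pool.Agent.Helper856.Cw.CwLE G k → Pool.Agent.H175R2.CwLE G k := by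
      rintro k ⟨W, G', l, hb, e⟩
      refine ⟨W, G', l, ?_, e⟩
      clear e
      induction hb with
      | single i => exact .single i
      | union V W G H l m _ _ ih1 ih2 => exact .union V W G H l m ih1 ih2
      | join V G l i j hij _ ih => exact .join V G l i j hij ih
      | relabel V G l i j _ ih => exact .relabel V G l i j ih
    have h1 : Pool.Agent.H175R2.CwLE G (Pool.Agent.H175R2.cliqueWidth G) :=
      Nat.sInf_mem (s := {k | Pool.Agent.H175R2.CwLE G k})
        ⟨k, conv k (Pool.Agent.Helper856.Cw.cwLE_of_lcwLE hk)⟩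
    obtain ⟨W, G', l, hb, e⟩ := h1
    exact Nat.sInf_le ⟨W, G', l, Decomp.built_conv hb, e⟩

open Pool.Agent.H73R2.Et in
theorem dec_of_et (t : ℕ) (ht : 1 ≤ t) : ∃ k : ℕ, ∀ (V : Type) [Finite V] (G : SimpleGraph V),
    IsChordalBipartite G → ¬ (E t).IsIndContained G → IsEmpty V ∨ Dec k G.Adj Set.univ := by
  obtain ⟨c, hc⟩ := Pool.Agent.H73R2.Et.main t ht
  exact ⟨c, fun V _ G h1 h2 => dec_of_cliqueWidth' (hc V G h1 h2)⟩

open Pool.Agent.H175R2 in
theorem dec_of_contr {W : Type} [Finite W] (H : SimpleGraph W) (hH : BddCw H) :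
    ∃ k : ℕ, ∀ (V : Type) [Finite V] (G : SimpleGraph V),
    G.Connected → ¬ Contracts G H → IsEmpty V ∨ Dec k G.Adj Set.univ := by
  obtain ⟨c, hc⟩ := hH
  exact ⟨c, fun V _ G h1 h2 => dec_of_cliqueWidth' (hc V G h1 h2)⟩

end Pool.Agent.H603GI
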