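import Pool.Agent.H603GI.Defs
import Pool.Agent.Helper856.Cw.Width
import Pool.Agent.H175R2.Defs

/-!
# Decompositions from clique-width
-/

namespace Pool.Agent.H603GI

open Relation

namespace Decomp

/-- The vertices of `X` have at most `k` types, which determine the labels. -/
def Row2 {V : Type} (k : ℕ) (E : V → V → Prop) (l : V → Fin k) (X : Set V) : Prop :=
  ∃ τ : V → Fin k, ∀ u ∈ X, ∀ v ∈ X, τ u = τ v → l u = l v ∧ ∀ w, w ∉ X → (E u w ↔ E v w)

/-- Decompositions with types which determine the labels. -/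
inductive Dec2 {V : Type} (k : ℕ) (E : V → V → Prop) (l : V → Fin k) : Set V → Prop
  | leaf (v : V) : Dec2 k E l {v}
  | union (X₁ X₂ : Set V) : Dec2 k E l X₁ → Dec2 k E l X₂ → Disjoint X₁ X₂ → Row2 k E l X₁ →
      Row2 k E l X₂ → Dec2 k E l (X₁ ∪ X₂)

theorem Dec2.dec {V : Type} {k : ℕ} {E : V → V → Prop} {l : V → Fin k} {X : Set V}
    (h : Dec2 k E l X) : Dec k E X := by
  induction h with
  | leaf v => exact Dec.leaf v
  | union X₁ X₂ _ _ hd h1 h2 ih1 ih2 =>
    refine Dec.union X₁ X₂ ih1 ih2 hd ?_ ?_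
    · obtain ⟨τ, hτ⟩ := h1
      exact ⟨τ, fun u hu v hv huv => (hτ u hu v hv huv).2⟩
    · obtain ⟨τ, hτ⟩ := h2
      exact ⟨τ, fun u hu v hv huv => (hτ u hu v hv huv).2⟩

/-- change of the relation and of the labels -/
theorem Dec2.change {V : Type} {k : ℕ} {E E' : V → V → Prop} {l l' : V → Fin k}
    (hl : ∀ u v, l u = l v → l' u = l' v)
    (hE : ∀ (X : Set V), ∀ u ∈ X, ∀ v ∈ X, l u = l v → ∀ w, w ∉ X → (E u w ↔ E v w) →
      (E' u w ↔ E' v w)) {X : Set V} (h : Dec2 k E l X) : Dec2 k E' l' X := by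
  have hrow : ∀ X, Row2 k E l X → Row2 k E' l' X := by
    rintro X ⟨τ, hτ⟩
    refine ⟨τ, fun u hu v hv huv => ?_⟩
    obtain ⟨h1, h2⟩ := hτ u hu v hv huv
    exact ⟨hl u v h1, fun w hw => hE X u hu v hv h1 w hw (h2 w hw)⟩
  induction h with
  | leaf v => exact Dec2.leaf v
  | union X₁ X₂ _ _ hd h1 h2 ih1 ih2 =>
    exact Dec2.union X₁ X₂ ih1 ih2 hd (hrow _ h1) (hrow _ h2)

/-- images under an injection onto a part without edges to the outside -/
theorem Dec2.image {V W : Type} {k : ℕ} {E : V → V → Prop} {E' : W → W → Prop} {l : V → Fin k}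
    {l' : W → Fin k} (f : V → W) (hf : Function.Injective f) (hl : ∀ u, l' (f u) = l u)
    (hE : ∀ u v, E' (f u) (f v) ↔ E u v) (hout : ∀ u w, w ∉ Set.range f → ¬ E' (f u) w)
    {X : Set V} (h : Dec2 k E l X) : Dec2 k E' l' (f '' X) := by
  have hrow : ∀ X, Row2 k E l X → Row2 k E' l' (f '' X) := by
    rintro X ⟨τ, hτ⟩
    refine ⟨Function.extend f τ l', ?_⟩
    rintro _ ⟨u, hu, rfl⟩ _ ⟨v, hv, rfl⟩ huv
    rw [hf.extend_apply, hf.extend_apply] at huv
    obtain ⟨h1, h2⟩ := hτ u hu v hv huv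
    refine ⟨by rw [hl, hl, h1], fun w hw => ?_⟩
    by_cases hr : w ∈ Set.range f
    · obtain ⟨w', rfl⟩ := hr
      rw [hE, hE]
      exact h2 w' fun hw' => hw ⟨w', hw', rfl⟩
    · exact iff_of_false (hout u w hr) (hout v w hr)
  induction h with
  | leaf v => rw [Set.image_singleton]; exact Dec2.leaf _
  | union X₁ X₂ _ _ hd h1 h2 ih1 ih2 =>
    rw [Set.image_union]
    exact Dec2.union _ _ ih1 ih2 ((Set.disjoint_image_iff hf).2 hd) (hrow _ h1) (hrow _ h2)

open Pool.Agent.Helper856.Cw in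
theorem dec2_of_built {k : ℕ} {V : Type} {G : SimpleGraph V} {l : V → Fin k}
    (h : CwBuilt k V G l) : Finite V ∧ Dec2 k G.Adj l Set.univ := by
  induction h with
  | single i =>
    refine ⟨inferInstance, ?_⟩
    have : (Set.univ : Set Unit) = {()} := by ext x; simp
    rw [this]
    exact Dec2.leaf ()
  | union V W G H l m _ _ ih1 ih2 =>
    obtain ⟨f1, d1⟩ := ih1
    obtain ⟨f2, d2⟩ := ih2
    refine ⟨inferInstance, ?_⟩
    have hu : (Set.univ : Set (V ⊕ W)) = Sum.inl '' Set.univ ∪ Sum.inr '' Set.univ := by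
      ext x
      cases x <;> simp
    have e1 : Dec2 k (G ⊕g H).Adj (Sum.elim l m) (Sum.inl '' (Set.univ : Set V)) := by
      refine Dec2.image Sum.inl Sum.inl_injective (fun u => rfl) (fun u v => by simp) ?_ d1
      rintro u (w | w) hw
      · exact absurd ⟨w, rfl⟩ hw
      · simp
    have e2 : Dec2 k (G ⊕g H).Adj (Sum.elim l m) (Sum.inr '' (Set.univ : Set W)) := by
      refine Dec2.image Sum.inr Sum.inr_injective (fun u => rfl) (fun u v => by simp) ?_ d2
      rintro u (w | w) hw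
      · simp
      · exact absurd ⟨w, rfl⟩ hw
    rw [hu]
    refine Dec2.union _ _ e1 e2 ?_ ?_ ?_
    · rw [Set.disjoint_left]
      rintro _ ⟨u, -, rfl⟩ ⟨v, -, h⟩
      exact Sum.inr_ne_inl h
    · refine ⟨Sum.elim l m, ?_⟩
      rintro _ ⟨u, -, rfl⟩ _ ⟨v, -, rfl⟩ huv
      refine ⟨huv, ?_⟩
      rintro (w | w) hw
      · exact absurd ⟨w, trivial, rfl⟩ hw
      · simp
    · refine ⟨Sum.elim l m, ?_⟩
      rintro _ ⟨u, -, rfl⟩ _ ⟨v, -, rfl⟩ huv
      refine ⟨huv, ?_⟩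
      rintro (w | w) hw
      · simp
      · exact absurd ⟨w, trivial, rfl⟩ hw
  | join V G l i j hij _ ih =>
    obtain ⟨f1, d1⟩ := ih
    refine ⟨f1, Dec2.change (fun u v h => h) ?_ d1⟩
    intro X u hu v hv huv w hw h
    have huw : u ≠ w := fun h => hw (h ▸ hu)
    have hvw : v ≠ w := fun h => hw (h ▸ hv)
    rw [SimpleGraph.sup_adj, SimpleGraph.sup_adj, SimpleGraph.fromRel_adj,
      SimpleGraph.fromRel_adj, h, huv]
    simp [huw, hvw]
  | relabel V G l i j _ ih =>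
    obtain ⟨f1, d1⟩ := ih
    refine ⟨f1, Dec2.change (fun u v h => ?_) (fun X u _ v _ _ w _ h => h) d1⟩
    rw [h]

/-- the two definitions of the construction agree -/
theorem built_conv {k : ℕ} {V : Type} {G : SimpleGraph V} {l : V → Fin k}
    (h : Pool.Agent.H175R2.CwBuilt k V G l) : Pool.Agent.Helper856.Cw.CwBuilt k V G l := by
  induction h with
  | single i => exact .single i
  | union V W G H l m _ _ ih1 ih2 => exact .union V W G H l m ih1 ih2
  | join V G l i j hij _ ih => exact .join V G l i j hij ih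
  | relabel V G l i j _ ih => exact .relabel V G l i j ih

end Decomp

theorem Dec.mono {V : Type} {E : V → V → Prop} {k k' : ℕ} (hk : k ≤ k') {X : Set V}
    (h : Dec k E X) : Dec k' E X := by
  have hrow : ∀ X, Row k E X → Row k' E X := by
    rintro X ⟨τ, hτ⟩
    refine ⟨fun u => Fin.castLE hk (τ u), fun u hu v hv huv => hτ u hu v hv ?_⟩
    exact Fin.castLE_injective hk huv
  induction h with
  | leaf v => exact Dec.leaf v
  | union X₁ X₂ _ _ hd h1 h2 ih1 ih2 =>
    exact Dec.union X₁ X₂ ih1 ih2 hd (hrow _ h1) (hrow _ h2)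

theorem Dec.compl {V : Type} {G : SimpleGraph V} {k : ℕ} {X : Set V} (h : Dec k G.Adj X) :
    Dec k Gᶜ.Adj X := by
  have hrow : ∀ X, Row k G.Adj X → Row k Gᶜ.Adj X := by
    rintro X ⟨τ, hτ⟩
    refine ⟨τ, fun u hu v hv huv w hw => ?_⟩
    have huw : u ≠ w := fun h => hw (h ▸ hu)
    have hvw : v ≠ w := fun h => hw (h ▸ hv)
    rw [SimpleGraph.compl_adj, SimpleGraph.compl_adj, hτ u hu v hv huv w hw]
    simp [huw, hvw]
  induction h with
  | leaf v => exact Dec.leaf v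
  | union X₁ X₂ _ _ hd h1 h2 ih1 ih2 =>
    exact Dec.union X₁ X₂ ih1 ih2 hd (hrow _ h1) (hrow _ h2)

/-- on the vertex set given by a bijection -/
theorem Dec.iso {V W : Type} {G : SimpleGraph V} {H : SimpleGraph W} {k : ℕ} (e : G ≃g H)
    (h : Dec k G.Adj Set.univ) : Dec k H.Adj Set.univ := by
  have hrow : ∀ X, Row k G.Adj X → Row k H.Adj (e '' X) := by
    rintro X ⟨τ, hτ⟩
    refine ⟨fun w => τ (e.symm w), ?_⟩
    rintro _ ⟨u, hu, rfl⟩ _ ⟨v, hv, rfl⟩ huv w hw
    simp only [RelIso.symm_apply_apply] at huv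
    obtain ⟨w, rfl⟩ := e.surjective w
    rw [e.map_adj_iff, e.map_adj_iff]
    exact hτ u hu v hv huv w fun hw' => hw ⟨w, hw', rfl⟩
  have key : ∀ X : Set V, Dec k G.Adj X → Dec k H.Adj (e '' X) := by
    intro X h
    induction h with
    | leaf v => rw [Set.image_singleton]; exact Dec.leaf _
    | union X₁ X₂ _ _ hd h1 h2 ih1 ih2 =>
      rw [Set.image_union]
      exact Dec.union _ _ ih1 ih2 ((Set.disjoint_image_iff e.injective).2 hd) (hrow _ h1)
        (hrow _ h2)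
  have := key _ h
  rwa [Set.image_univ, e.surjective.range_eq] at this

theorem dec_of_cwLE {V : Type} {G : SimpleGraph V} {k : ℕ}
    (h : Pool.Agent.Helper856.Cw.CwLE G k) : Finite V ∧ Dec k G.Adj Set.univ := by
  obtain ⟨W, G', l, hb, ⟨e⟩⟩ := h
  obtain ⟨hf, hd⟩ := Decomp.dec2_of_built hb
  exact ⟨Finite.of_equiv W e.symm.toEquiv, Dec.iso e.symm hd.dec⟩

theorem dec_of_cwLE' {V : Type} {G : SimpleGraph V} {k : ℕ}
    (h : Pool.Agent.H175R2.CwLE G k) : Finite V ∧ Dec k G.Adj Set.univ := by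
  obtain ⟨W, G', l, hb, ⟨e⟩⟩ := h
  exact dec_of_cwLE ⟨W, G', l, Decomp.built_conv hb, ⟨e⟩⟩

end Pool.Agent.H603GI
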