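import Pool.Agent.H603GI.Defs

/-!
# The rounds of refinement
-/

namespace Pool.Agent.H603GI

open Relation

section
variable {ι V : Type}

/-- The rounds of refinement, abstractly. -/
def Rounds (E : ι → V → V → Prop) (m : ℕ) : ℕ → ι → (Fin m → V) → ι → (Fin m → V) → Prop
  | 0 => fun i x j y => (∀ a b, (x a = x b ↔ y a = y b)) ∧
      ∀ a b, (E i (x a) (x b) ↔ E j (y a) (y b))
  | r + 1 => fun i x j y => Rounds E m r i x j y ∧ ∀ (c : Fin m) (k : ι) (z : Fin m → V),
      Nat.card {u // Rounds E m r i (Function.update x c u) k z} =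
        Nat.card {u // Rounds E m r j (Function.update y c u) k z}

theorem Rounds.refl (E : ι → V → V → Prop) (m r : ℕ) (i : ι) (x : Fin m → V) :
    Rounds E m r i x i x := by
  induction r generalizing i x with
  | zero => exact ⟨fun a b => Iff.rfl, fun a b => Iff.rfl⟩
  | succ r ih => exact ⟨ih i x, fun c k z => rfl⟩

theorem Rounds.symm {E : ι → V → V → Prop} {m r : ℕ} {i j : ι} {x y : Fin m → V}
    (h : Rounds E m r i x j y) : Rounds E m r j y i x := by
  induction r generalizing i j x y with
  | zero => exact ⟨fun a b => (h.1 a b).symm, fun a b => (h.2 a b).symm⟩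
  | succ r ih => exact ⟨ih h.1, fun c k z => (h.2 c k z).symm⟩

theorem Rounds.trans {E : ι → V → V → Prop} {m r : ℕ} {i j k : ι} {x y z : Fin m → V}
    (h : Rounds E m r i x j y) (h' : Rounds E m r j y k z) : Rounds E m r i x k z := by
  induction r generalizing i j k x y z with
  | zero => exact ⟨fun a b => (h.1 a b).trans (h'.1 a b), fun a b => (h.2 a b).trans (h'.2 a b)⟩
  | succ r ih => exact ⟨ih h.1 h'.1, fun c l w => (h.2 c l w).trans (h'.2 c l w)⟩

theorem Rounds.zero_of {E : ι → V → V → Prop} {m r : ℕ} {i j : ι} {x y : Fin m → V}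
    (h : Rounds E m r i x j y) : Rounds E m 0 i x j y := by
  induction r with
  | zero => exact h
  | succ r ih => exact ih h.1

/-- the equivalence relation on the set of all tuples -/
def Rounds.setoid (E : ι → V → V → Prop) (m r : ℕ) : Setoid (ι × (Fin m → V)) where
  r p p' := Rounds E m r p.1 p.2 p'.1 p'.2
  iseqv := ⟨fun p => Rounds.refl E m r p.1 p.2, fun h => h.symm, fun h h' => h.trans h'⟩

/-- counting lemma -/
theorem Rounds.exists_equiv [Finite V] {E : ι → V → V → Prop} {m r : ℕ}
    {f g : V → ι × (Fin m → V)}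
    (h : ∀ (k : ι) (z : Fin m → V), Nat.card {u // Rounds E m r (f u).1 (f u).2 k z} =
      Nat.card {u // Rounds E m r (g u).1 (g u).2 k z}) :
    ∃ e : V ≃ V, ∀ u, Rounds E m r (f u).1 (f u).2 (g (e u)).1 (g (e u)).2 := by
  have h1 : ∀ q : Quotient (Rounds.setoid E m r),
      Nonempty ({u // (Quotient.mk (Rounds.setoid E m r) (f u)) = q} ≃
        {u // (Quotient.mk (Rounds.setoid E m r) (g u)) = q}) := by
    intro q
    obtain ⟨⟨k, z⟩, rfl⟩ := Quotient.exists_rep q
    apply Finite.card_eq.1
    have e1 : ∀ F : V → ι × (Fin m → V), Nat.card {u // (Quotient.mk (Rounds.setoid E m r) (F u)) =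
        Quotient.mk (Rounds.setoid E m r) (k, z)} =
        Nat.card {u // Rounds E m r (F u).1 (F u).2 k z} := by
      intro F
      apply Nat.card_congr
      apply Equiv.subtypeEquivRight
      intro u
      exact Quotient.eq (r := Rounds.setoid E m r)
    rw [e1 f, e1 g]
    exact h k z
  refine ⟨Equiv.ofFiberEquiv (fun q => (h1 q).some), ?_⟩
  intro u
  have h2 := Equiv.ofFiberEquiv_map (fun q => (h1 q).some) u
  exact ((Quotient.eq (r := Rounds.setoid E m r)).1 h2).symm

/-- equal counts give a bijection -/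
theorem Rounds.exists_ext [Finite V] {E : ι → V → V → Prop} {m r : ℕ} {i j : ι}
    {x y : Fin m → V} (h : Rounds E m (r + 1) i x j y) (c : Fin m) :
    ∃ e : V ≃ V, ∀ u, Rounds E m r i (Function.update x c u) j (Function.update y c (e u)) :=
  Rounds.exists_equiv (f := fun u => (i, Function.update x c u))
    (g := fun u => (j, Function.update y c u)) (h.2 c)

theorem Rounds.card_eq_of_equiv {E : ι → V → V → Prop} {m r : ℕ} {i j : ι}
    {f g : V → (Fin m → V)} (e : V ≃ V)
    (he : ∀ u, Rounds E m r i (f u) j (g (e u))) (k : ι) (z : Fin m → V) :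
    Nat.card {u // Rounds E m r i (f u) k z} = Nat.card {u // Rounds E m r j (g u) k z} := by
  apply Nat.card_congr
  refine e.subtypeEquiv ?_
  intro u
  exact ⟨fun h => (he u).symm.trans h, fun h => (he u).trans h⟩

theorem Rounds.subst [Finite V] {E : ι → V → V → Prop} {m r : ℕ} {i j : ι}
    {x y : Fin m → V} (h : Rounds E m r i x j y) (σ : Fin m → Fin m) :
    Rounds E m r i (x ∘ σ) j (y ∘ σ) := by
  induction r generalizing i j x y σ with
  | zero => exact ⟨fun a b => h.1 (σ a) (σ b), fun a b => h.2 (σ a) (σ b)⟩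
  | succ r ih =>
    refine ⟨ih h.1 σ, ?_⟩
    intro c k z
    obtain ⟨d, hd⟩ : ∃ d : Fin m, ∀ c', c' ≠ c → σ c' ≠ d := by
      have h1 : ((Finset.univ.erase c).image σ).card < (Finset.univ : Finset (Fin m)).card :=
        lt_of_le_of_lt Finset.card_image_le (Finset.card_erase_lt_of_mem (Finset.mem_univ c))
      obtain ⟨d, -, hd⟩ := Finset.exists_mem_notMem_of_card_lt_card h1
      refine ⟨d, fun c' hc' he => hd ?_⟩
      exact Finset.mem_image.2 ⟨c', Finset.mem_erase.2 ⟨hc', Finset.mem_univ _⟩, he⟩
    obtain ⟨e, he⟩ := h.exists_ext d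
    have h2 : ∀ (w : Fin m → V) (u : V), Function.update (w ∘ σ) c u =
        (Function.update w d u) ∘ (Function.update σ c d) := by
      intro w u
      funext c'
      by_cases hc : c' = c
      · subst hc
        simp
      · simp only [Function.comp, Function.update_of_ne hc]
        rw [Function.update_of_ne (hd c' hc)]
    refine Rounds.card_eq_of_equiv e ?_ k z
    intro u
    rw [h2, h2]
    exact ih (he u) _

theorem wl_of_rounds [Finite V] (E : ι → V → V → Prop) (m N : ℕ)
    (hN : ∀ i x j y, Rounds E m N i x j y → Rounds E m (N + 1) i x j y) :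
    WL E m (Rounds E m N) where
  refl i x := Rounds.refl E m N i x
  symm h := h.symm
  trans h h' := h.trans h'
  eq_iff h a b := h.zero_of.1 a b
  adj_iff h a b := h.zero_of.2 a b
  subst h σ := h.subst σ
  ext h c := (hN _ _ _ _ h).exists_ext c

theorem rounds_of_iso [Finite V] (E : ι → V → V → Prop) (m : ℕ) {i j : ι} (φ : V ≃ V)
    (hφ : ∀ u w, E i u w ↔ E j (φ u) (φ w)) (r : ℕ) (x : Fin m → V) :
    Rounds E m r i x j (φ ∘ x) := by
  induction r generalizing x with
  | zero =>
    exact ⟨fun a b => φ.injective.eq_iff.symm, fun a b => hφ (x a) (x b)⟩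
  | succ r ih =>
    refine ⟨ih x, ?_⟩
    intro c k z
    refine Rounds.card_eq_of_equiv φ ?_ k z
    intro u
    rw [← Function.comp_update]
    exact ih _

end

end Pool.Agent.H603GI
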