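import Pool.Agent.H603GI.Alg
import Pool.Agent.H603GI.Rounds

set_option autoImplicit false

/-!
# The list algorithm computes the rounds
-/

namespace Pool.Agent.H603GI

open Pool.Agent.H622R2 Pool.Agent.H333R2.Col

namespace L1

/-- a tuple as a list -/
def ls {n m : ℕ} (x : Fin m → Fin n) : List ℕ := List.ofFn fun a => (x a : ℕ)

theorem mem_tuples {V : List ℕ} {k : ℕ} {l : List ℕ} :
    l ∈ tuples V k ↔ l.length = k ∧ ∀ x ∈ l, x ∈ V := by
  induction k generalizing l with
  | zero =>
    simp only [tuples, List.mem_singleton, List.length_eq_zero_iff]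
    constructor
    · rintro rfl
      simp
    · exact fun h => h.1
  | succ k ih =>
    simp only [tuples, List.mem_flatMap, List.mem_map]
    constructor
    · rintro ⟨v, hv, l', hl', rfl⟩
      obtain ⟨h1, h2⟩ := ih.1 hl'
      refine ⟨by simp [h1], ?_⟩
      intro x hx
      rcases List.mem_cons.1 hx with rfl | hx
      · exact hv
      · exact h2 x hx
    · rintro ⟨h1, h2⟩
      cases l with
      | nil => simp at h1
      | cons v l' =>
        refine ⟨v, h2 v (by simp), l', ih.2 ⟨by simpa using h1, fun x hx => h2 x (by simp [hx])⟩, rfl⟩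

theorem ls_mem_tuples {n m : ℕ} (x : Fin m → Fin n) : ls x ∈ tuples (List.range n) m := by
  rw [mem_tuples]
  refine ⟨by simp [ls], fun v hv => ?_⟩
  unfold ls at hv
  rw [List.mem_ofFn'] at hv
  obtain ⟨a, rfl⟩ := hv
  simp

theorem exists_ls {n m : ℕ} {l : List ℕ} (hl : l ∈ tuples (List.range n) m) :
    ∃ x : Fin m → Fin n, l = ls x := by
  obtain ⟨h1, h2⟩ := mem_tuples.1 hl
  subst h1
  refine ⟨fun a => ⟨l[a], by simpa using h2 l[a] (List.getElem_mem _)⟩, ?_⟩
  unfold ls
  exact List.ofFn_getElem.symm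

theorem mem_sts_ls {n m : ℕ} (g : Bool) (x : Fin m → Fin n) : (g, ls x) ∈ sts n m := by
  unfold sts
  rw [List.mem_flatMap]
  refine ⟨g, by cases g <;> simp, ?_⟩
  rw [List.mem_map]
  exact ⟨ls x, ls_mem_tuples x, rfl⟩

theorem exists_of_mem_sts {n m : ℕ} {s : WSt} (hs : s ∈ sts n m) :
    ∃ (g : Bool) (x : Fin m → Fin n), s = (g, ls x) := by
  unfold sts at hs
  rw [List.mem_flatMap] at hs
  obtain ⟨g, -, hs⟩ := hs
  rw [List.mem_map] at hs
  obtain ⟨l, hl, rfl⟩ := hs
  obtain ⟨x, rfl⟩ := exists_ls hl
  exact ⟨g, x, rfl⟩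

theorem getD_ls {n m : ℕ} (x : Fin m → Fin n) (a : ℕ) (ha : a < m) :
    (ls x).getD a 0 = (x ⟨a, ha⟩ : ℕ) := by
  unfold ls
  rw [List.getD_eq_getElem _ _ (by simpa using ha)]
  simp

theorem upd_ls {n m : ℕ} (x : Fin m → Fin n) (c : Fin m) (u : Fin n) :
    upd (ls x) c u = ls (Function.update x c u) := by
  apply List.ext_getElem
  · simp [upd, ls]
  · intro i h1 h2
    have hi : i < m := by simpa [ls] using h2
    by_cases h : i = c
    · subst h
      simp [upd, ls]
    · have h' : (⟨i, hi⟩ : Fin m) ≠ c := fun hh => h (by rw [← hh])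
      simp [upd, ls, h, Function.update_of_ne h']

theorem atom_iff (M N : List (List Bool)) {n m : ℕ} (g g' : Bool) (x y : Fin m → Fin n) :
    atom M N m (g, ls x) (g', ls y) = true ↔
      (∀ a b, (x a = x b ↔ y a = y b)) ∧
        ∀ a b, (adjG M N g (x a) (x b) = true ↔ adjG M N g' (y a) (y b) = true) := by
  unfold atom
  simp only [List.all_eq_true, List.mem_range, Bool.and_eq_true, decide_eq_true_eq]
  constructor
  · intro h
    constructor
    · intro a b
      have h1 := (h a a.2 b b.2).1
      rw [getD_ls x a a.2, getD_ls x b b.2, getD_ls y a a.2, getD_ls y b b.2] at h1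
      rw [decide_eq_decide] at h1
      rw [← Fin.val_inj, ← Fin.val_inj (a := y a)]
      exact h1
    · intro a b
      have h1 := (h a a.2 b b.2).2
      rw [getD_ls x a a.2, getD_ls x b b.2, getD_ls y a a.2, getD_ls y b b.2] at h1
      simp only [Fin.eta] at h1
      rw [h1]
  · rintro ⟨h1, h2⟩ a ha b hb
    rw [getD_ls x a ha, getD_ls x b hb, getD_ls y a ha, getD_ls y b hb]
    constructor
    · rw [decide_eq_decide, Fin.val_inj, Fin.val_inj]
      exact h1 _ _
    · exact Bool.eq_iff_iff.2 (h2 ⟨a, ha⟩ ⟨b, hb⟩)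

theorem mem_rel0 (M N : List (List Bool)) {n m : ℕ} (g g' : Bool) (x y : Fin m → Fin n) :
    ((g, ls x), (g', ls y)) ∈ rel0 M N n m ↔ atom M N m (g, ls x) (g', ls y) = true := by
  unfold rel0
  rw [List.mem_filter]
  constructor
  · exact fun h => h.2
  · intro h
    refine ⟨?_, h⟩
    rw [List.mem_flatMap]
    refine ⟨_, mem_sts_ls g x, ?_⟩
    rw [List.mem_map]
    exact ⟨_, mem_sts_ls g' y, rfl⟩

theorem cnt_eq {n m : ℕ} (R : List (WSt × WSt)) (g k : Bool) (x z : Fin m → Fin n) (c : Fin m) :
    cnt n R (g, ls x) c (k, ls z) =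
      Nat.card {u : Fin n // ((g, ls (Function.update x c u)), (k, ls z)) ∈ R} := by
  classical
  unfold cnt
  rw [Nat.card_eq_fintype_card, Fintype.card_subtype, ← List.map_coe_finRange_eq_range,
    List.filter_map, List.length_map]
  have h1 : (Finset.univ.filter fun u : Fin n => ((g, ls (Function.update x c u)), (k, ls z)) ∈ R).card
      = ((List.finRange n).filter fun u =>
          decide (((g, ls (Function.update x c u)), (k, ls z)) ∈ R)).length := by
    rw [← List.toFinset_card_of_nodup ((List.nodup_finRange n).filter _)]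
    congr 1
    ext u
    simp
  rw [h1]
  congr 1
  apply List.filter_congr
  intro u _
  simp only [Function.comp_apply]
  rw [upd_ls]

theorem mem_refineStep {n m : ℕ} (R : List (WSt × WSt)) (g g' : Bool) (x y : Fin m → Fin n) :
    ((g, ls x), (g', ls y)) ∈ refineStep n m R ↔ ((g, ls x), (g', ls y)) ∈ R ∧
      ∀ (c : Fin m) (k : Bool) (z : Fin m → Fin n),
        cnt n R (g, ls x) c (k, ls z) = cnt n R (g', ls y) c (k, ls z) := by
  unfold refineStep
  rw [List.mem_filter]
  simp only [List.all_eq_true, List.mem_range, decide_eq_true_eq]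
  constructor
  · rintro ⟨h1, h2⟩
    exact ⟨h1, fun c k z => h2 c c.2 _ (mem_sts_ls k z)⟩
  · rintro ⟨h1, h2⟩
    refine ⟨h1, fun c hc s hs => ?_⟩
    obtain ⟨k, z, rfl⟩ := exists_of_mem_sts hs
    exact h2 ⟨c, hc⟩ k z

end L1

open L1 in
/-- the list algorithm computes the rounds -/
theorem mem_refine_iff (M N : List (List Bool)) (n m r : ℕ) (g g' : Bool) (x y : Fin m → Fin n) :
    ((g, List.ofFn fun a => (x a : ℕ)), (g', List.ofFn fun a => (y a : ℕ))) ∈
        (refineStep n m)^[r] (rel0 M N n m) ↔
      Rounds (fun b (u w : Fin n) => adjG M N b u w = true) m r g x g' y := by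
  induction r generalizing g g' x y with
  | zero =>
    rw [Function.iterate_zero_apply]
    exact (mem_rel0 M N g g' x y).trans (atom_iff M N g g' x y)
  | succ r ih =>
    rw [Function.iterate_succ_apply']
    refine (mem_refineStep _ g g' x y).trans ?_
    refine and_congr (ih g g' x y) ?_
    refine forall_congr' fun c => forall_congr' fun k => forall_congr' fun z => ?_
    rw [cnt_eq, cnt_eq]
    have e : ∀ (g : Bool) (x : Fin m → Fin n), Nat.card {u : Fin n //
        ((g, ls (Function.update x c u)), (k, ls z)) ∈ (refineStep n m)^[r] (rel0 M N n m)} =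
        Nat.card {u // Rounds (fun b (u w : Fin n) => adjG M N b u w = true) m r g
          (Function.update x c u) k z} := by
      intro g x
      refine Nat.card_congr (Equiv.subtypeEquivRight fun u => ?_)
      exact ih g k (Function.update x c u) z
    rw [e g x, e g' y]

end Pool.Agent.H603GI
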