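import Pool.Agent.H603GI.Rounds
import Pool.Agent.H603GI.ListRel

/-!
# The list algorithm: specification (helper677)
-/

namespace Pool.Agent.H603GI

open Pool.Agent.H622R2 Pool.Agent.H333R2.Col

theorem ls_iter {α : Type} (f : List α → List α)
    (hf : ∀ R, f R = R ∨ (f R).length < R.length) :
    ∀ (k : ℕ) (R : List α), R.length ≤ k → f (f^[k] R) = f^[k] R := by
  intro k
  induction k with
  | zero =>
    intro R hR
    rcases hf R with h | h
    · exact h
    · omega
  | succ k ih =>
    intro R hR
    rcases hf R with h | h
    · rw [Function.iterate_fixed h]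
      exact h
    · rw [Function.iterate_succ_apply]
      exact ih (f R) (by omega)

theorem ls_step (n m : ℕ) (R : List (WSt × WSt)) :
    refineStep n m R = R ∨ (refineStep n m R).length < R.length := by
  unfold refineStep
  rcases Nat.lt_or_ge (List.filter (fun p : WSt × WSt => (List.range m).all fun c =>
      (sts n m).all fun z => decide (cnt n R p.1 c z = cnt n R p.2 c z)) R).length R.length
    with h | h
  · exact Or.inr h
  · exact Or.inl (List.filter_sublist.eq_of_length_le h)

theorem ls_adj (M : List (List Bool)) (u w : Fin M.length) :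
    adjB M u w = true ↔ (matGraph M).Adj u w := by
  simp only [matGraph, adjB]
  simp only [Bool.and_eq_true, Bool.or_eq_true, Bool.not_eq_true', decide_eq_false_iff_not]
  constructor
  · rintro ⟨h, h'⟩
    exact ⟨fun he => h (congrArg Fin.val he), h'⟩
  · rintro ⟨h, h'⟩
    exact ⟨fun he => h (Fin.ext he), h'⟩

theorem ls_false (M N : List (List Bool)) (u w : ℕ) : adjG M N false u w = adjB M u w := by
  simp [adjG]

theorem ls_true (M N : List (List Bool)) (u w : ℕ) : adjG M N true u w = adjB N u w := by
  simp [adjG]

theorem wlTest_of_iso (m : ℕ) (M N : List (List Bool)) (h : Nonempty (matGraph M ≃g matGraph N)) :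
    wlTest m M N = true := by
  obtain ⟨f⟩ := h
  have hlen : M.length = N.length := by
    have := Fintype.card_congr f.toEquiv
    simpa using this
  unfold wlTest
  rw [Bool.and_eq_true, Bool.or_eq_true]
  refine ⟨decide_eq_true hlen, ?_⟩
  rcases Nat.eq_zero_or_pos M.length with h0 | h0
  · exact Or.inl (decide_eq_true h0)
  · right
    let v0 : Fin M.length := ⟨0, h0⟩
    let φ : Fin M.length ≃ Fin M.length := f.toEquiv.trans (finCongr hlen.symm)
    have hφv : ∀ u, ((φ u : Fin M.length) : ℕ) = (f u : Fin N.length) := fun u => rfl
    have hφ : ∀ u w : Fin M.length, adjG M N false u w = true ↔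
        adjG M N true (φ u) (φ w) = true := by
      intro u w
      rw [ls_false, ls_true, hφv, hφv, ls_adj, ls_adj]
      exact f.map_adj_iff.symm
    have h1 := rounds_of_iso (fun b (u w : Fin M.length) => adjG M N b u w = true) m
      (i := false) (j := true) φ hφ (rel0 M N M.length m).length (fun _ => v0)
    rw [List.any_eq_true]
    refine ⟨(φ v0 : Fin M.length), List.mem_range.2 (φ v0).2, decide_eq_true ?_⟩
    have h2 := (mem_refine_iff M N M.length m (rel0 M N M.length m).length false true
      (fun _ => v0) (φ ∘ fun _ => v0)).2 h1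
    have e1 : (List.ofFn fun _ : Fin m => ((v0 : Fin M.length) : ℕ)) = List.replicate m 0 :=
      List.ofFn_const _ _
    have e2 : (List.ofFn fun a : Fin m => (((φ ∘ fun _ => v0) a : Fin M.length) : ℕ)) =
        List.replicate m ((φ v0 : Fin M.length) : ℕ) := List.ofFn_const _ _
    rw [e1, e2] at h2
    exact h2

theorem wl_of_wlTest (m : ℕ) (M N : List (List Bool)) (h : wlTest m M N = true) :
    M.length = N.length ∧ (M.length = 0 ∨
      ∃ (Q : Bool → (Fin m → Fin M.length) → Bool → (Fin m → Fin M.length) → Prop)
        (v v' : Fin M.length),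
        WL (fun b (u w : Fin M.length) => adjG M N b u w = true) m Q ∧
          Q false (fun _ => v) true (fun _ => v')) := by
  unfold wlTest at h
  rw [Bool.and_eq_true, Bool.or_eq_true] at h
  obtain ⟨h1, h2⟩ := h
  refine ⟨of_decide_eq_true h1, ?_⟩
  rcases h2 with h2 | h2
  · exact Or.inl (of_decide_eq_true h2)
  · right
    rw [List.any_eq_true] at h2
    obtain ⟨u, hu, h3⟩ := h2
    have hu' : u < M.length := List.mem_range.1 hu
    have h0 : 0 < M.length := by omega
    have h4 := of_decide_eq_true h3
    have hst : refineStep M.length m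
        ((refineStep M.length m)^[(rel0 M N M.length m).length] (rel0 M N M.length m)) =
        (refineStep M.length m)^[(rel0 M N M.length m).length] (rel0 M N M.length m) :=
      ls_iter _ (ls_step M.length m) _ _ le_rfl
    refine ⟨Rounds (fun b (u w : Fin M.length) => adjG M N b u w = true) m
      (rel0 M N M.length m).length, ⟨0, h0⟩, ⟨u, hu'⟩, ?_, ?_⟩
    · refine wl_of_rounds _ m _ fun i x j y hxy => ?_
      rw [← mem_refine_iff] at hxy ⊢
      rw [Function.iterate_succ_apply', hst]
      exact hxy
    · rw [← mem_refine_iff]
      have e1 : (List.ofFn fun _ : Fin m => (((⟨0, h0⟩ : Fin M.length)) : ℕ)) =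
          List.replicate m 0 := List.ofFn_const _ _
      have e2 : (List.ofFn fun _ : Fin m => (((⟨u, hu'⟩ : Fin M.length)) : ℕ)) =
          List.replicate m u := List.ofFn_const _ _
      rw [e1, e2]
      exact h4

end Pool.Agent.H603GI
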