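import Pool.Agent.H603GI.Alg
import Pool.Agent.H333R2.Col.PO1

/-!
# The Weisfeiler-Leman algorithm runs in polynomial time
-/

namespace Pool.Agent.H603GI

open Pool.Agent.H622R2 Pool.Agent.H333R2.Col Pool.Agent.H333R2.Col.PO1 Pool.Agent.NPC

namespace L3

attribute [local fun_prop] Poly.range_length poly_adjB poly_tuples

variable {α : Type} [TEnc α] {M N : α → List (List Bool)}

theorem poly_adjG {g : α → Bool} {u v : α → ℕ} (hM : Poly M) (hN : Poly N) (hg : Poly g)
    (hu : Poly u) (hv : Poly v) : Poly (fun a => adjG (M a) (N a) (g a) (u a) (v a)) := by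
  unfold adjG
  fun_prop

attribute [local fun_prop] poly_adjG

theorem poly_sts (hM : Poly M) (m : ℕ) : Poly (fun a => sts (M a).length m) := by
  unfold sts
  fun_prop

attribute [local fun_prop] poly_sts

theorem poly_upd {x : α → List ℕ} {c u : α → ℕ} (hx : Poly x) (hc : Poly c) (hu : Poly u) :
    Poly (fun a => upd (x a) (c a) (u a)) := by
  unfold upd
  fun_prop

attribute [local fun_prop] poly_upd

theorem poly_atom {s t : α → WSt} (hM : Poly M) (hN : Poly N) (m : ℕ) (hs : Poly s)
    (ht : Poly t) : Poly (fun a => atom (M a) (N a) m (s a) (t a)) := by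
  unfold atom
  fun_prop

attribute [local fun_prop] poly_atom

theorem poly_rel0 (hM : Poly M) (hN : Poly N) (m : ℕ) :
    Poly (fun a => rel0 (M a) (N a) (M a).length m) := by
  unfold rel0
  fun_prop

attribute [local fun_prop] poly_rel0

theorem poly_cnt {R : α → List (WSt × WSt)} {s z : α → WSt} {c : α → ℕ} (hM : Poly M)
    (hR : Poly R) (hs : Poly s) (hc : Poly c) (hz : Poly z) :
    Poly (fun a => cnt (M a).length (R a) (s a) (c a) (z a)) := by
  unfold cnt
  fun_prop

attribute [local fun_prop] poly_cnt

theorem poly_refineStep {R : α → List (WSt × WSt)} (hM : Poly M) (hR : Poly R) (m : ℕ) :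
    Poly (fun a => refineStep (M a).length m (R a)) := by
  unfold refineStep
  fun_prop

attribute [local fun_prop] poly_refineStep

theorem sz_sublist' {β : Type} [TEnc β] {l l' : List β} (h : l.Sublist l') : sz l ≤ sz l' := by
  induction h with
  | slnil => exact le_rfl
  | cons a _ ih => rw [sz_list_cons]; omega
  | cons_cons a _ ih => rw [sz_list_cons, sz_list_cons]; omega

theorem poly_relFin (hM : Poly M) (hN : Poly N) (m : ℕ) :
    Poly (fun a => relFin (M a) (N a) (M a).length m) := by
  unfold relFin
  have h0 : Poly (fun a => rel0 (M a) (N a) (M a).length m) := poly_rel0 hM hN m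
  obtain ⟨p, hp⟩ := h0.sz_le
  refine Poly.iterLen (l := fun a => rel0 (M a) (N a) (M a).length m)
    (s := fun a => rel0 (M a) (N a) (M a).length m)
    (F := fun a R => refineStep (M a).length m R) h0 h0 (by fun_prop) p ?_
  intro a j _
  have key : ∀ j : ℕ, sz ((refineStep (M a).length m)^[j] (rel0 (M a) (N a) (M a).length m)) ≤
      sz (rel0 (M a) (N a) (M a).length m) := by
    intro j
    induction j with
    | zero => exact le_rfl
    | succ j ih =>
      rw [Function.iterate_succ_apply']
      exact le_trans (sz_sublist' List.filter_sublist) ih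
  exact (key j).trans (hp a)

attribute [local fun_prop] poly_relFin

end L3

open L3

theorem poly_wlTest (m : ℕ) :
    Poly (fun x : List (List Bool) × List (List Bool) => wlTest m x.1 x.2) := by
  unfold wlTest
  have h1 : Poly (fun x : List (List Bool) × List (List Bool) => x.1) := Poly.fst Poly.id
  have h2 : Poly (fun x : List (List Bool) × List (List Bool) => x.2) := Poly.snd Poly.id
  have h3 : Poly (fun p : (List (List Bool) × List (List Bool)) × ℕ =>
      relFin p.1.1 p.1.2 p.1.1.length m) :=
    poly_relFin (M := fun p : (List (List Bool) × List (List Bool)) × ℕ => p.1.1)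
      (N := fun p : (List (List Bool) × List (List Bool)) × ℕ => p.1.2) (by fun_prop)
      (by fun_prop) m
  have h4 : Poly (fun p : (List (List Bool) × List (List Bool)) × ℕ =>
      ((true, List.replicate m p.2) : WSt)) := by
    refine NPC.Poly.pair (NPC.Poly.const true) ?_
    clear h3
    induction m with
    | zero => exact NPC.Poly.const ([] : List ℕ)
    | succ m ih => exact (NPC.Poly.cons (NPC.Poly.snd NPC.Poly.id) ih)
  have h5 : Poly (fun x : List (List Bool) × List (List Bool) => List.range x.1.length) :=
    Poly.range_length h1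
  fun_prop

end Pool.Agent.H603GI
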