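import Pool.Agent.H603GI.Ind
import Pool.Agent.H603GI.ListSpec
import Pool.Agent.H603GI.PolyWl
import Pool.Agent.H603GI.Decomp
import Pool.Agent.NPC.Dec

/-!
# GRAPH ISOMORPHISM is polynomial on every class with bounded decompositions
-/

namespace Pool.Agent.H603GI

open Pool.Agent.H622R2 Pool.Agent.NPC Pool.Agent.H333R2.Col

/-- GRAPH ISOMORPHISM can be decided in polynomial time when one of the two graphs has the
property `P` (the other one is arbitrary): there is one polynomial-time Turing machine (in
Mathlib's sense) which, given (the code of) two adjacency matrices `M`, `N`, where the graph of `M`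
has the property `P`, decides whether the two graphs are isomorphic. -/
def GIInPOn (P : ∀ (V : Type), SimpleGraph V → Prop) : Prop :=
  ∃ F : List Bool → List Bool, PolyTime F ∧ ∀ M N : List (List Bool),
    P (Fin M.length) (matGraph M) →
      (F (bits (M, N)) = [true] ↔ Nonempty (matGraph M ≃g matGraph N))

theorem core_symm (M N : List (List Bool)) (b : Bool) (u w : ℕ) :
    adjG M N b u w = true ↔ adjG M N b w u = true := by
  have h : ∀ L : List (List Bool), adjB L u w = adjB L w u := by
    intro L
    unfold adjB
    rw [Bool.or_comm, show decide (u = w) = decide (w = u) from decide_eq_decide.mpr eq_comm]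
  unfold adjG
  rw [h M, h N]

theorem core_irrefl (M N : List (List Bool)) (b : Bool) (u : ℕ) : ¬ adjG M N b u u = true := by
  unfold adjG adjB
  cases b <;> simp

theorem core_adj (M : List (List Bool)) (u w : Fin M.length) :
    (matGraph M).Adj u w ↔ adjB M u w = true := by
  unfold adjB matGraph
  simp [Fin.ext_iff]

/-- the test is correct if the first graph has a decomposition -/
theorem wlTest_correct {k : ℕ} (M N : List (List Bool))
    (h : IsEmpty (Fin M.length) ∨ Dec k (matGraph M).Adj Set.univ) :
    wlTest (3 * (k + k * k) + 4) M N = true ↔ Nonempty (matGraph M ≃g matGraph N) := by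
  refine ⟨fun ht => ?_, wlTest_of_iso _ M N⟩
  obtain ⟨hlen, h0 | ⟨Q, v, v', hQ, hv⟩⟩ := wl_of_wlTest _ M N ht
  · have h1 : IsEmpty (Fin M.length) := by rw [h0]; infer_instance
    have h2 : IsEmpty (Fin N.length) := by rw [← hlen, h0]; infer_instance
    exact ⟨⟨Equiv.equivOfIsEmpty _ _, fun {a} => isEmptyElim a⟩⟩
  · have hdec : Dec k (matGraph M).Adj Set.univ := h.resolve_left fun he => he.false v
    have hd : Dec k (fun u w : Fin M.length => adjG M N false u w = true) Set.univ := by
      have h1 : (matGraph M).Adj = fun u w : Fin M.length => adjG M N false u w = true := by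
        funext u w
        exact propext ((core_adj M u w).trans (by simp [adjG]))
      rwa [h1] at hdec
    obtain ⟨f, hf⟩ := iso_of_wl (K := k) hQ (by omega) (fun b u w => core_symm M N b u w)
      (fun b u => core_irrefl M N b u) false true hd hv
    refine ⟨⟨f.trans (finCongr hlen), fun {a b} => ?_⟩⟩
    have h1 := hf a b
    rw [core_adj, core_adj]
    simp only [adjG, Bool.false_eq_true, if_false, if_true] at h1
    exact h1.symm

/-- GRAPH ISOMORPHISM is polynomial on every class with bounded decompositions. -/
theorem giInPOn_of_dec {P : ∀ (V : Type), SimpleGraph V → Prop} {k : ℕ}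
    (h : ∀ (V : Type) [Finite V] (G : SimpleGraph V), P V G →
      IsEmpty V ∨ Dec k G.Adj Set.univ) : GIInPOn P := by
  have hp : Poly (fun x : List Bool =>
      (unbits (List (List Bool) × List (List Bool)) x).elim false
        (fun y => wlTest (3 * (k + k * k) + 4) y.1 y.2)) :=
    Poly.optElim (o := fun x => unbits (List (List Bool) × List (List Bool)) x)
      (g := fun _ => false)
      (h := fun _ y => wlTest (3 * (k + k * k) + 4) y.1 y.2) poly_unbits (NPC.Poly.const false)
      ((poly_wlTest (3 * (k + k * k) + 4)).comp (NPC.Poly.snd NPC.Poly.id))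
  refine ⟨_, polyTime_of_poly hp, fun M N hM => ?_⟩
  rw [unbits_bits]
  simp only [Option.elim_some, List.cons.injEq, and_true]
  exact wlTest_correct M N (h _ _ hM)

theorem dec_of_cliqueWidth {V : Type} [Finite V] {G : SimpleGraph V} {c : ℕ}
    (h : Pool.Agent.Helper856.Cw.cliqueWidth G ≤ c) : IsEmpty V ∨ Dec c G.Adj Set.univ := by
  rcases isEmpty_or_nonempty V with hV | hV
  · exact Or.inl hV
  · right
    obtain ⟨k, hk⟩ := Pool.Agent.Helper856.Lcw.exists_lcwLE G
    have h1 : Pool.Agent.Helper856.Cw.CwLE G (Pool.Agent.Helper856.Cw.cliqueWidth G) :=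
      Nat.sInf_mem (s := {k | Pool.Agent.Helper856.Cw.CwLE G k})
        ⟨k, Pool.Agent.Helper856.Cw.cwLE_of_lcwLE hk⟩
    exact (dec_of_cwLE h1).2.mono h

/-- GRAPH ISOMORPHISM is polynomial on every class of bounded clique-width. -/
theorem giInPOn_of_cliqueWidth {P : ∀ (V : Type), SimpleGraph V → Prop} {c : ℕ}
    (h : ∀ (V : Type) [Finite V] (G : SimpleGraph V), P V G →
      Pool.Agent.Helper856.Cw.cliqueWidth G ≤ c) : GIInPOn P :=
  giInPOn_of_dec fun V _ G hG => dec_of_cliqueWidth (h V G hG)

/-- GRAPH ISOMORPHISM is polynomial on every class of graphs whose complements have bounded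
clique-width. -/
theorem giInPOn_of_cliqueWidth_compl {P : ∀ (V : Type), SimpleGraph V → Prop} {c : ℕ}
    (h : ∀ (V : Type) [Finite V] (G : SimpleGraph V), P V G →
      Pool.Agent.Helper856.Cw.cliqueWidth Gᶜ ≤ c) : GIInPOn P :=
  giInPOn_of_dec fun V _ G hG => (dec_of_cliqueWidth (h V G hG)).imp id fun hd => by
    have h1 := hd.compl
    rwa [compl_compl] at h1

end Pool.Agent.H603GI
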