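import Mathlib

/-!
# Graph isomorphism on graphs of bounded clique-width: definitions
-/

namespace Pool.Agent.H603GI

open Relation

/-! ### Relations computed by the Weisfeiler-Leman algorithm -/

/-- `Q` is an equivalence relation between `m`-tuples of vertices of the graphs `E i` (all on the
vertex set `V`) with the properties of the stable colouring of the `m`-dimensional
Weisfeiler-Leman algorithm. -/
structure WL {ι V : Type} (E : ι → V → V → Prop) (m : ℕ)
    (Q : ι → (Fin m → V) → ι → (Fin m → V) → Prop) : Prop where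
  refl : ∀ i x, Q i x i x
  symm : ∀ {i x j y}, Q i x j y → Q j y i x
  trans : ∀ {i x j y k z}, Q i x j y → Q j y k z → Q i x k z
  eq_iff : ∀ {i x j y}, Q i x j y → ∀ a b, (x a = x b ↔ y a = y b)
  adj_iff : ∀ {i x j y}, Q i x j y → ∀ a b, (E i (x a) (x b) ↔ E j (y a) (y b))
  subst : ∀ {i x j y}, Q i x j y → ∀ σ : Fin m → Fin m, Q i (x ∘ σ) j (y ∘ σ)
  ext : ∀ {i x j y}, Q i x j y → ∀ c : Fin m, ∃ h : V ≃ V, ∀ u,
    Q i (Function.update x c u) j (Function.update y c (h u))

/-- The induced relation between tuples with an arbitrary index type. -/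
def Eqv {ι V : Type} {m : ℕ} (Q : ι → (Fin m → V) → ι → (Fin m → V) → Prop) {α : Type}
    (i : ι) (x : α → V) (j : ι) (y : α → V) : Prop :=
  ∀ σ : Fin m → α, Q i (x ∘ σ) j (y ∘ σ)

/-- One more entry. -/
def cons {α V : Type} (x : α → V) (u : V) : Option α → V := fun o => o.elim u x

/-! ### Two-dimensional relations over a set of bases -/

/-- `T a u w a' u' w'`: the pair `u, w` over the base `a` looks like `u', w'` over `a'`. -/
structure CC {A V : Type} (T : A → V → V → A → V → V → Prop) : Prop where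
  refl : ∀ a u w, T a u w a u w
  symm : ∀ {a u w a' u' w'}, T a u w a' u' w' → T a' u' w' a u w
  trans : ∀ {a u w a' u' w' b s t}, T a u w a' u' w' → T a' u' w' b s t → T a u w b s t
  swap : ∀ {a u w a' u' w'}, T a u w a' u' w' → T a w u a' w' u'
  diag : ∀ {a u w a' u' w'}, T a u w a' u' w' → T a u u a' u' u'
  eq_iff : ∀ {a u w a' u' w'}, T a u w a' u' w' → (u = w ↔ u' = w')
  ext : ∀ {a u w a' u' w'}, T a u w a' u' w' → ∃ h : V ≃ V, ∀ z,
    T a u z a' u' (h z) ∧ T a z w a' (h z) w'

/-- An invariant binary relation. -/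
def Inv2 {A V : Type} (T : A → V → V → A → V → V → Prop) (r : A → V → V → Prop) : Prop :=
  ∀ {a u w a' u' w'}, T a u w a' u' w' → (r a u w ↔ r a' u' w')

/-- An invariant unary relation. -/
def Inv1 {A V : Type} (T : A → V → V → A → V → V → Prop) (c : A → V → Prop) : Prop :=
  ∀ {a u a' u'}, T a u u a' u' u' → (c a u ↔ c a' u')

/-- Strong connectivity. -/
def Scc {V : Type} (r : V → V → Prop) (u w : V) : Prop :=
  ReflTransGen r u w ∧ ReflTransGen r w u

/-- The number of vertices which can be reached. -/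
noncomputable def lev {V : Type} (r : V → V → Prop) (u : V) : ℕ :=
  Nat.card {w // ReflTransGen r u w}

/-- The data of one side of a cut: an arrow relation `r`, representatives `Rp` and adjacency to
the representatives `N`. -/
structure Side {A V : Type} {K : ℕ} (T : A → V → V → A → V → V → Prop) (E r : A → V → V → Prop)
    (Rp N : A → V → Fin K → Prop) : Prop where
  inv_r : Inv2 T r
  inv_Rp : ∀ l, Inv1 T (fun a u => Rp a u l)
  inv_N : ∀ l, Inv1 T (fun a u => N a u l)
  formula : ∀ {a u w l}, u ≠ w → ¬ r a u w → Rp a u l → (E a u w ↔ N a w l)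

/-- The strong components of `u` over `a` and of `u'` over `a'` are isomorphic. -/
def ClsIso {A V : Type} {K : ℕ} (E r : A → V → V → Prop) (Rp N : A → V → Fin K → Prop)
    (ess : Fin K → Prop) (a : A) (u : V) (a' : A) (u' : V) : Prop :=
  ∃ f : {w // Scc (r a) u w} ≃ {w // Scc (r a') u' w},
    (∀ x y, E a x.1 y.1 ↔ E a' (f x).1 (f y).1) ∧
    (∀ x l, Rp a x.1 l ↔ Rp a' (f x).1 l) ∧
    (∀ x l, ess l → (N a x.1 l ↔ N a' (f x).1 l))

/-! ### Parameters -/

/-- Indices of parameters: `K` representatives and `K * K` distinguishing vertices. -/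
abbrev Idx (K : ℕ) := Fin K ⊕ (Fin K × Fin K)

/-- `u` and the representative `i` have the same adjacencies to the distinguishing vertices. -/
def Agr {V : Type} {K : ℕ} (E : V → V → Prop) (p : Idx K → V) (u : V) (i : Fin K) : Prop :=
  ∀ j, (E u (p (Sum.inr j)) ↔ E (p (Sum.inl i)) (p (Sum.inr j)))

/-- `i` is the first representative agreeing with `u`. -/
def Rep {V : Type} {K : ℕ} (E : V → V → Prop) (p : Idx K → V) (u : V) (i : Fin K) : Prop :=
  Agr E p u i ∧ ∀ i' < i, ¬ Agr E p u i'

/-- The arrows: from a vertex to its representative, and to those vertices where the two rows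
differ. -/
def Arr {V : Type} {K : ℕ} (E : V → V → Prop) (p : Idx K → V) (u w : V) : Prop :=
  ∃ i, Rep E p u i ∧ (w = p (Sum.inl i) ∨ (u ≠ w ∧ ¬ (E u w ↔ E (p (Sum.inl i)) w)))

/-- `p` is a parameter for the set `X`. -/
structure Good {V : Type} {K : ℕ} (E : V → V → Prop) (p : Idx K → V) (X : Set V) : Prop where
  rep : ∀ u ∈ X, ∃ i, Rep E p u i ∧ ∀ w, w ∉ X → (E u w ↔ E (p (Sum.inl i)) w)
  inl_mem : ∀ i, p (Sum.inl i) ∈ X
  inr_not_mem : ∀ j, p (Sum.inr j) ∉ X

/-- The vertices of `X` have at most `k` types with respect to the vertices outside. -/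
def Row {V : Type} (k : ℕ) (E : V → V → Prop) (X : Set V) : Prop :=
  ∃ τ : V → Fin k, ∀ u ∈ X, ∀ v ∈ X, τ u = τ v → ∀ w, w ∉ X → (E u w ↔ E v w)

/-- The sets of vertices which occur in a binary decomposition with at most `k` types. -/
inductive Dec {V : Type} (k : ℕ) (E : V → V → Prop) : Set V → Prop
  | leaf (v : V) : Dec k E {v}
  | union (X₁ X₂ : Set V) : Dec k E X₁ → Dec k E X₂ → Disjoint X₁ X₂ → Row k E X₁ →
      Row k E X₂ → Dec k E (X₁ ∪ X₂)

/-- The component of `v` over `p` and the component of `v'` over `p'` are isomorphic. -/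
def IsoOK {ι V : Type} {K : ℕ} (E : ι → V → V → Prop) (i : ι) (p : Idx K → V) (v : V)
    (j : ι) (p' : Idx K → V) (v' : V) : Prop :=
  ∃ f : {w // Scc (Arr (E i) p) v w} ≃ {w // Scc (Arr (E j) p') v' w},
    (∀ x y, E i x.1 y.1 ↔ E j (f x).1 (f y).1) ∧
    (∀ x l, Rep (E i) p x.1 l ↔ Rep (E j) p' (f x).1 l) ∧
    (∀ x l, Rep (E i) p (p (Sum.inl l)) l →
      (E i x.1 (p (Sum.inl l)) ↔ E j (f x).1 (p' (Sum.inl l))))

end Pool.Agent.H603GI
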