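import Pool.Agent.H603GI.Defs

/-!
# Parameters (task P, by helper403)
-/

set_option linter.unusedVariables false

namespace Pool.Agent.H603GI

open Relation

section
variable {V : Type} {K : ℕ} {E : V → V → Prop}

theorem Rep.unique {p : Idx K → V} {u : V} {i j : Fin K} (h : Rep E p u i) (h' : Rep E p u j) :
    i = j := by
  rcases lt_trichotomy i j with hij | hij | hij
  · exact absurd h.1 (h'.2 i hij)
  · exact hij
  · exact absurd h'.1 (h.2 j hij)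

theorem Good.closed {p : Idx K → V} {X : Set V} (h : Good E p X) {u w : V} (hu : u ∈ X)
    (ha : Arr E p u w) : w ∈ X := by
  obtain ⟨i, hi, hw⟩ := ha
  obtain ⟨i', hi', hE⟩ := h.rep u hu
  have e := Rep.unique hi hi'
  subst e
  rcases hw with hw | ⟨-, hw⟩
  · rw [hw]; exact h.inl_mem i
  · by_contra hcon
    exact hw (hE w hcon)

theorem Good.ess {p : Idx K → V} {X : Set V} (h : Good E p X) {u : V} {i : Fin K} (hu : u ∈ X)
    (hr : Rep E p u i) : Rep E p (p (Sum.inl i)) i := by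
  refine ⟨fun j => Iff.rfl, fun i' hi' hA => hr.2 i' hi' fun j => ?_⟩
  exact (hr.1 j).trans (hA j)

/-- same row outside of the set -/
def PmRow (E : V → V → Prop) (X₁ : Set V) (u u' : V) : Prop := ∀ w, w ∉ X₁ → (E u w ↔ E u' w)

theorem PmRow.symm {X₁ : Set V} {u u' : V} (h : PmRow E X₁ u u') : PmRow E X₁ u' u :=
  fun w hw => (h w hw).symm

theorem PmRow.trans {X₁ : Set V} {u u' u'' : V} (h : PmRow E X₁ u u') (h' : PmRow E X₁ u' u'') :
    PmRow E X₁ u u'' := fun w hw => (h w hw).trans (h' w hw)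

/-- parameters from a choice of representatives -/
theorem Pm_common {X₁ : Set V} (hne : X₁.Nonempty) {w0 : V} (hw0 : w0 ∉ X₁) (hr : Row K E X₁)
    (t : V → V) (t1 : ∀ u ∈ X₁, t u ∈ X₁ ∧ PmRow E X₁ u (t u))
    (t2 : ∀ u ∈ X₁, ∀ u' ∈ X₁, PmRow E X₁ u u' → t u = t u') :
    ∃ p₁ : Idx K → V, Good E p₁ X₁ ∧ ∀ u ∈ X₁, ∀ i, Rep E p₁ u i → p₁ (Sum.inl i) = t u := by
  classical
  obtain ⟨τ, hτ⟩ := hr
  obtain ⟨u₀, hu₀⟩ := hne
  obtain ⟨a, ha⟩ : ∃ a : Fin K → V, ∀ k, (∃ u ∈ X₁, a k = t u) ∧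
      ∀ u ∈ X₁, τ (t u) = k → a k = t u := by
    refine ⟨fun k => if h : ∃ u ∈ X₁, τ (t u) = k then t h.choose else t u₀, fun k => ?_⟩
    by_cases h : ∃ u ∈ X₁, τ (t u) = k
    · simp only [dif_pos h]
      have hc := h.choose_spec
      refine ⟨⟨_, hc.1, rfl⟩, fun u hu hk => ?_⟩
      have e1 := (t1 _ hc.1)
      have e2 := (t1 u hu)
      have e3 : PmRow E X₁ (t h.choose) (t u) := hτ _ e1.1 _ e2.1 (by rw [hc.2, hk])
      exact t2 _ hc.1 _ hu ((e1.2.trans e3).trans e2.2.symm)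
    · simp only [dif_neg h]
      exact ⟨⟨u₀, hu₀, rfl⟩, fun u hu hk => absurd ⟨u, hu, hk⟩ h⟩
  obtain ⟨b, hb1, hb2⟩ : ∃ b : Fin K × Fin K → V, (∀ j, b j ∉ X₁) ∧
      ∀ i j, (∃ w, w ∉ X₁ ∧ ¬ (E (a i) w ↔ E (a j) w)) → ¬ (E (a i) (b (i, j)) ↔ E (a j) (b (i, j))) := by
    refine ⟨fun j => if h : ∃ w, w ∉ X₁ ∧ ¬ (E (a j.1) w ↔ E (a j.2) w) then h.choose else w0,
      fun j => ?_, fun i j h => ?_⟩
    · by_cases h : ∃ w, w ∉ X₁ ∧ ¬ (E (a j.1) w ↔ E (a j.2) w)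
      · simp only [dif_pos h]
        exact h.choose_spec.1
      · simp only [dif_neg h]
        exact hw0
    · simp only [dif_pos h]
      exact h.choose_spec.2
  have hamem : ∀ k, a k ∈ X₁ := by
    intro k
    obtain ⟨u, hu, hk⟩ := (ha k).1
    rw [hk]
    exact (t1 u hu).1
  have hAgr : ∀ u ∈ X₁, ∀ i, Agr E (Sum.elim a b : Idx K → V) u i ↔ PmRow E X₁ u (a i) := by
    intro u hu i
    constructor
    · intro hA
      have hk := (ha (τ (t u))).2 u hu rfl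
      have h1 : PmRow E X₁ u (a (τ (t u))) := by rw [hk]; exact (t1 u hu).2
      intro w hw
      by_contra hcon
      have h2 : ∃ w, w ∉ X₁ ∧ ¬ (E (a (τ (t u))) w ↔ E (a i) w) := by
        refine ⟨w, hw, fun h3 => hcon ?_⟩
        exact (h1 w hw).trans h3
      apply hb2 _ _ h2
      have h3 := hA (τ (t u), i)
      simp only [Sum.elim_inr, Sum.elim_inl] at h3
      exact (h1 _ (hb1 _)).symm.trans h3
    · intro h j
      simp only [Sum.elim_inr, Sum.elim_inl]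
      exact h _ (hb1 j)
  have hat : ∀ u ∈ X₁, ∀ i, PmRow E X₁ u (a i) → a i = t u := by
    intro u hu i h
    obtain ⟨u', hu', hk⟩ := (ha i).1
    rw [hk] at h ⊢
    exact (t2 u hu u' hu' (h.trans (t1 u' hu').2.symm)).symm
  refine ⟨Sum.elim a b, ⟨?_, ?_, ?_⟩, ?_⟩
  · intro u hu
    have hk := (ha (τ (t u))).2 u hu rfl
    have hne : {i : Fin K | Agr E (Sum.elim a b : Idx K → V) u i}.Nonempty :=
      ⟨τ (t u), (hAgr u hu _).2 (by rw [hk]; exact (t1 u hu).2)⟩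
    obtain ⟨i, hi, hmin⟩ := WellFounded.has_min (wellFounded_lt (α := Fin K)) _ hne
    refine ⟨i, ⟨hi, fun i' hi' hA => hmin i' hA hi'⟩, ?_⟩
    exact (hAgr u hu i).1 hi
  · intro i
    exact hamem i
  · intro j
    exact hb1 j
  · intro u hu i hi
    exact hat u hu i ((hAgr u hu i).1 hi.1)

/-- the choice of an element of a set with priorities -/
theorem Pm_pick [Nonempty V] (P1 P2 P3 : V → Prop) : ∃ pick : Set V → V, ∀ C : Set V, C.Nonempty →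
    pick C ∈ C ∧ ((∃ u ∈ C, P1 u) → P1 (pick C)) ∧
    ((∃ u ∈ C, P2 u) → P1 (pick C) ∨ P2 (pick C)) ∧
    ((∃ u ∈ C, P3 u) → P1 (pick C) ∨ P2 (pick C) ∨ P3 (pick C)) := by
  classical
  have h : ∀ C : Set V, ∃ x : V, C.Nonempty → x ∈ C ∧ ((∃ u ∈ C, P1 u) → P1 x) ∧
    ((∃ u ∈ C, P2 u) → P1 x ∨ P2 x) ∧ ((∃ u ∈ C, P3 u) → P1 x ∨ P2 x ∨ P3 x) := by
    intro C
    by_cases hC : C.Nonempty
    · by_cases h1 : ∃ u ∈ C, P1 u
      · obtain ⟨x, hx, h⟩ := h1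
        exact ⟨x, fun _ => ⟨hx, fun _ => h, fun _ => Or.inl h, fun _ => Or.inl h⟩⟩
      · by_cases h2 : ∃ u ∈ C, P2 u
        · obtain ⟨x, hx, h⟩ := h2
          exact ⟨x, fun _ => ⟨hx, fun h' => absurd h' h1, fun _ => Or.inr h,
            fun _ => Or.inr (Or.inl h)⟩⟩
        · by_cases h3 : ∃ u ∈ C, P3 u
          · obtain ⟨x, hx, h⟩ := h3
            exact ⟨x, fun _ => ⟨hx, fun h' => absurd h' h1, fun h' => absurd h' h2,
              fun _ => Or.inr (Or.inr h)⟩⟩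
          · obtain ⟨x, hx⟩ := hC
            exact ⟨x, fun _ => ⟨hx, fun h' => absurd h' h1, fun h' => absurd h' h2,
              fun h' => absurd h' h3⟩⟩
    · exact ⟨Classical.arbitrary V, fun h' => absurd h' hC⟩
  exact ⟨fun C => (h C).choose, fun C hC => (h C).choose_spec hC⟩

/-- the class of an element -/
def PmCls (E : V → V → Prop) (X₁ : Set V) (u : V) : Set V := {u' | u' ∈ X₁ ∧ PmRow E X₁ u u'}

theorem PmCls.eq {X₁ : Set V} {u u' : V} (h : PmRow E X₁ u u') :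
    PmCls E X₁ u = PmCls E X₁ u' := by
  ext w
  exact ⟨fun hw => ⟨hw.1, h.symm.trans hw.2⟩, fun hw => ⟨hw.1, h.trans hw.2⟩⟩

theorem PmCls.self {X₁ : Set V} {u : V} (hu : u ∈ X₁) : u ∈ PmCls E X₁ u :=
  ⟨hu, fun _ _ => Iff.rfl⟩

/-- arrows for the new parameter do not leave a closed set -/
theorem Pm_mono {p p₁ : Idx K → V} {X X₁ S : Set V} (hp : Good E p X) (h1 : X₁ ⊆ X)
    (hp₁ : Good E p₁ X₁) (t : V → V) (t1 : ∀ u ∈ X₁, t u ∈ X₁ ∧ PmRow E X₁ u (t u))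
    (ht : ∀ u ∈ X₁, ∀ i, Rep E p₁ u i → p₁ (Sum.inl i) = t u)
    (hS : ∀ u ∈ S, ∀ w, Arr E p u w → w ∈ S) (hSt : ∀ u ∈ X₁, u ∈ S → t u ∈ S) {u w : V}
    (hu : u ∈ X₁) (huS : u ∈ S) (ha : Arr E p₁ u w) : w ∈ X₁ ∧ w ∈ S := by
  have hwX : w ∈ X₁ := hp₁.closed hu ha
  refine ⟨hwX, ?_⟩
  obtain ⟨i, hi, hw⟩ := ha
  rw [ht u hu i hi] at hw
  rcases hw with hw | ⟨hne, hw⟩
  · rw [hw]; exact hSt u hu huS
  · by_contra hwS
    obtain ⟨l, hl, -⟩ := hp.rep u (h1 hu)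
    have e1 : E u w ↔ E (p (Sum.inl l)) w := by
      by_contra hcon
      exact hwS (hS u huS w ⟨l, hl, Or.inr ⟨hne, hcon⟩⟩)
    have hs := t1 u hu
    have hsS := hSt u hu huS
    have hl' : Rep E p (t u) l := by
      have hag : ∀ i, Agr E p (t u) i ↔ Agr E p u i := by
        intro i
        constructor
        · intro h j
          exact (hs.2 _ (fun h' => hp.inr_not_mem j (h1 h'))).trans (h j)
        · intro h j
          exact (hs.2 _ (fun h' => hp.inr_not_mem j (h1 h'))).symm.trans (h j)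
      exact ⟨(hag l).2 hl.1, fun i' hi' h => hl.2 i' hi' ((hag i').1 h)⟩
    have hne' : t u ≠ w := by
      intro h
      exact hwS (h ▸ hsS)
    have e2 : E (t u) w ↔ E (p (Sum.inl l)) w := by
      by_contra hcon
      exact hwS (hS (t u) hsS w ⟨l, hl', Or.inr ⟨hne', hcon⟩⟩)
    exact hw (e1.trans e2.symm)

theorem Pm_mono_rtg {p p₁ : Idx K → V} {X X₁ S : Set V} (hp : Good E p X) (h1 : X₁ ⊆ X)
    (hp₁ : Good E p₁ X₁) (t : V → V) (t1 : ∀ u ∈ X₁, t u ∈ X₁ ∧ PmRow E X₁ u (t u))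
    (ht : ∀ u ∈ X₁, ∀ i, Rep E p₁ u i → p₁ (Sum.inl i) = t u)
    (hS : ∀ u ∈ S, ∀ w, Arr E p u w → w ∈ S) (hSt : ∀ u ∈ X₁, u ∈ S → t u ∈ S) {u w : V}
    (hu : u ∈ X₁) (huS : u ∈ S) (ha : ReflTransGen (Arr E p₁) u w) : w ∈ X₁ ∧ w ∈ S := by
  induction ha with
  | refl => exact ⟨hu, huS⟩
  | tail _ hb ih => exact Pm_mono hp h1 hp₁ t t1 ht hS hSt ih.1 ih.2 hb

theorem exists_good_root (hsymm : ∀ u w, E u w ↔ E w u) (hirr : ∀ u, ¬ E u u)
    {X₁ : Set V} (hx : X₁ ≠ Set.univ) (hne : X₁.Nonempty) (hr : Row K E X₁) :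
    ∃ p₁ : Idx K → V, Good E p₁ X₁ := by
  obtain ⟨w0, hw0⟩ := (Set.ne_univ_iff_exists_notMem X₁).1 hx
  have : Nonempty V := ⟨w0⟩
  obtain ⟨pick, hpick⟩ := Pm_pick (fun _ : V => False) (fun _ => False) (fun _ => False)
  obtain ⟨p₁, hp₁, -⟩ := Pm_common hne hw0 hr (fun u => pick (PmCls E X₁ u))
    (fun u hu => (hpick (PmCls E X₁ u) ⟨u, PmCls.self hu⟩).1)
    (fun u _ u' _ h => by
      show pick (PmCls E X₁ u) = pick (PmCls E X₁ u')
      rw [PmCls.eq h])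
  exact ⟨p₁, hp₁⟩

theorem exists_good_nice (hsymm : ∀ u w, E u w ↔ E w u) (hirr : ∀ u, ¬ E u u)
    {p : Idx K → V} {X : Set V} (hp : Good E p X) {v : V} (hv : v ∈ X) {X₁ : Set V}
    (h1 : X₁ ⊆ X) (hne : X₁.Nonempty) (hr : Row K E X₁) :
    ∃ p₁ : Idx K → V, Good E p₁ X₁ ∧
      (∀ u w, u ∈ X₁ → Scc (Arr E p) v u → Scc (Arr E p₁) u w → Scc (Arr E p) v w) ∧
      (∀ i, p (Sum.inl i) ∈ X₁ → Rep E p (p (Sum.inl i)) i →
        ∃ i₁, p₁ (Sum.inl i₁) = p (Sum.inl i) ∧ Rep E p₁ (p₁ (Sum.inl i₁)) i₁) := by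
  have : Nonempty V := ⟨v⟩
  obtain ⟨w0, hw0⟩ : ∃ w0, w0 ∉ X₁ := by
    obtain ⟨τ, -⟩ := hr
    exact ⟨p (Sum.inr (τ v, τ v)), fun h => hp.inr_not_mem _ (h1 h)⟩
  obtain ⟨pick, hpick⟩ := Pm_pick (fun f : V => ∃ l, f = p (Sum.inl l) ∧ Rep E p f l)
    (fun w => ReflTransGen (Arr E p) v w ∧ ¬ ReflTransGen (Arr E p) w v)
    (fun w => ReflTransGen (Arr E p) v w)
  obtain ⟨t, htdef⟩ : ∃ t : V → V, ∀ u, t u = pick (PmCls E X₁ u) := ⟨_, fun _ => rfl⟩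
  have t1 : ∀ u ∈ X₁, t u ∈ X₁ ∧ PmRow E X₁ u (t u) := by
    intro u hu
    rw [htdef]
    exact (hpick (PmCls E X₁ u) ⟨u, PmCls.self hu⟩).1
  have t2 : ∀ u ∈ X₁, ∀ u' ∈ X₁, PmRow E X₁ u u' → t u = t u' := by
    intro u _ u' _ h
    rw [htdef, htdef, PmCls.eq h]
  obtain ⟨p₁, hp₁, ht⟩ := Pm_common hne hw0 hr t t1 t2
  -- elements with the same row have the same representative
  have hrep : ∀ u u' l, PmRow E X₁ u u' → Rep E p u l → Rep E p u' l := by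
    intro u u' l h hl
    have hag : ∀ i, Agr E p u' i ↔ Agr E p u i := by
      intro i
      constructor
      · intro h' j
        exact (h _ (fun h' => hp.inr_not_mem j (h1 h'))).trans (h' j)
      · intro h' j
        exact (h _ (fun h' => hp.inr_not_mem j (h1 h'))).symm.trans (h' j)
    exact ⟨(hag l).2 hl.1, fun i' hi' h => hl.2 i' hi' ((hag i').1 h)⟩
  -- an arrow to an old representative
  have harr : ∀ u ∈ X₁, (∃ l, t u = p (Sum.inl l) ∧ Rep E p (t u) l) → Arr E p u (t u) := by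
    rintro u hu ⟨l, hl1, hl2⟩
    exact ⟨l, hrep _ _ l (t1 u hu).2.symm hl2, Or.inl hl1⟩
  have hRt : ∀ u ∈ X₁, u ∈ {w | ReflTransGen (Arr E p) v w} →
      t u ∈ {w | ReflTransGen (Arr E p) v w} := by
    intro u hu huR
    have h3 := (hpick (PmCls E X₁ u) ⟨u, PmCls.self hu⟩).2.2.2 ⟨u, PmCls.self hu, huR⟩
    rw [← htdef] at h3
    rcases h3 with h3 | h3 | h3
    · exact ReflTransGen.tail huR (harr u hu h3)
    · exact h3.1
    · exact h3
  have hRmt : ∀ u ∈ X₁, u ∈ {w | ReflTransGen (Arr E p) v w ∧ ¬ ReflTransGen (Arr E p) w v} →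
      t u ∈ {w | ReflTransGen (Arr E p) v w ∧ ¬ ReflTransGen (Arr E p) w v} := by
    intro u hu huR
    have h3 := (hpick (PmCls E X₁ u) ⟨u, PmCls.self hu⟩).2.2.1 ⟨u, PmCls.self hu, huR⟩
    rw [← htdef] at h3
    rcases h3 with h3 | h3
    · exact ⟨ReflTransGen.tail huR.1 (harr u hu h3), fun h => huR.2 (ReflTransGen.head (harr u hu h3) h)⟩
    · exact h3
  have hRc : ∀ u ∈ {w | ReflTransGen (Arr E p) v w}, ∀ w, Arr E p u w →
      w ∈ {w | ReflTransGen (Arr E p) v w} := fun u hu w ha => ReflTransGen.tail hu ha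
  have hRmc : ∀ u ∈ {w | ReflTransGen (Arr E p) v w ∧ ¬ ReflTransGen (Arr E p) w v}, ∀ w,
      Arr E p u w → w ∈ {w | ReflTransGen (Arr E p) v w ∧ ¬ ReflTransGen (Arr E p) w v} :=
    fun u hu w ha => ⟨ReflTransGen.tail hu.1 ha, fun h => hu.2 (ReflTransGen.head ha h)⟩
  refine ⟨p₁, hp₁, ?_, ?_⟩
  · intro u w hu hvu huw
    have hw := Pm_mono_rtg hp h1 hp₁ t t1 ht hRc hRt hu hvu.1 huw.1
    refine ⟨hw.2, ?_⟩
    by_contra hcon
    have h3 := Pm_mono_rtg hp h1 hp₁ t t1 ht hRmc hRmt hw.1 ⟨hw.2, hcon⟩ huw.2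
    exact h3.2.2 hvu.2
  · intro i hi hri
    have h3 := (hpick (PmCls E X₁ (p (Sum.inl i))) ⟨_, PmCls.self hi⟩).2.1 ⟨p (Sum.inl i), PmCls.self hi, i, rfl, hri⟩
    rw [← htdef] at h3
    obtain ⟨l, hl1, hl2⟩ := h3
    have h4 := hrep _ _ l (t1 _ hi).2.symm hl2
    have h5 := Rep.unique h4 hri
    subst h5
    obtain ⟨i₁, hi₁, -⟩ := hp₁.rep _ hi
    have h6 := ht _ hi i₁ hi₁
    rw [hl1] at h6
    refine ⟨i₁, h6, ?_⟩
    rw [h6]
    exact hi₁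

end

end Pool.Agent.H603GI
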