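import Pool.Agent.H603GI.Basic
import Pool.Agent.H603GI.Coh
import Pool.Agent.H603GI.Param
import Pool.Agent.H603GI.Asm

/-!
# The induction along the decomposition
-/

namespace Pool.Agent.H603GI

open Relation

section Atomic

variable {ι V : Type} {E : ι → V → V → Prop} {m : ℕ}
  {Q : ι → (Fin m → V) → ι → (Fin m → V) → Prop}

theorem ind_rep (hQ : WL E m Q) (hm : 2 ≤ m) {γ : Type} {i j : ι} {x y : γ → V}
    (h : Eqv Q i x j y) {K : ℕ} (π : Idx K → γ) (s : γ) (l : Fin K) :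
    Rep (E i) (fun t => x (π t)) (x s) l ↔ Rep (E j) (fun t => y (π t)) (y s) l := by
  have ha := h.adj_iff hQ hm
  unfold Rep Agr
  simp only [ha]

theorem ind_arr (hQ : WL E m Q) (hm : 2 ≤ m) {γ : Type} {i j : ι} {x y : γ → V}
    (h : Eqv Q i x j y) {K : ℕ} (π : Idx K → γ) (s t : γ) :
    Arr (E i) (fun t => x (π t)) (x s) (x t) ↔ Arr (E j) (fun t => y (π t)) (y s) (y t) := by
  have ha := h.adj_iff hQ hm
  have he := h.eq_iff hQ hm
  unfold Arr Rep Agr
  simp only [ha, he, ne_eq]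

end Atomic

/-- the index type of bases -/
abbrev Bas (K : ℕ) := Option (Idx K) ⊕ (Idx K ⊕ Idx K)

/-- the relation over bases -/
def TT {ι V : Type} {m : ℕ} (Q : ι → (Fin m → V) → ι → (Fin m → V) → Prop) (α : Type)
    (a : ι × (α → V)) (u w : V) (a' : ι × (α → V)) (u' w' : V) : Prop :=
  Eqv Q a.1 (cons (cons a.2 u) w) a'.1 (cons (cons a'.2 u') w')

section TT

variable {ι V : Type} {E : ι → V → V → Prop} {m : ℕ}
  {Q : ι → (Fin m → V) → ι → (Fin m → V) → Prop} {α : Type}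

theorem TT.left {a : ι × (α → V)} {u w : V} {a' : ι × (α → V)} {u' w' : V}
    (h : TT Q α a u w a' u' w') (t : α) : TT Q α a (a.2 t) w a' (a'.2 t) w' := by
  have h1 := Eqv.comp h (fun o : Option (Option α) => match o with
    | none => none
    | some none => some (some t)
    | some (some s) => some (some s))
  unfold TT
  convert h1 using 1
  · funext o
    rcases o with _ | _ | s <;> rfl
  · funext o
    rcases o with _ | _ | s <;> rfl

theorem TT.eqv {a : ι × (α → V)} {u w : V} {a' : ι × (α → V)} {u' w' : V}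
    (h : TT Q α a u w a' u' w') : Eqv Q a.1 a.2 a'.1 a'.2 :=
  Eqv.comp h (fun s => some (some s))

theorem TT.sub {a : ι × (α → V)} {u w : V} {a' : ι × (α → V)} {u' w' : V}
    (h : TT Q α a u w a' u' w') {β : Type} (π : β → α) :
    Eqv Q a.1 (cons (fun t => a.2 (π t)) w) a'.1 (cons (fun t => a'.2 (π t)) w') := by
  have h1 := Eqv.comp h (fun o : Option β => match o with
    | none => none
    | some s => some (some (π s)))
  convert h1 using 1
  · funext o
    rcases o with _ | s <;> rfl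
  · funext o
    rcases o with _ | s <;> rfl

theorem TT.of_eqv {i j : ι} {x y : α → V} (h : Eqv Q i x j y) (t : α) :
    TT Q α (i, x) (x t) (x t) (j, y) (y t) (y t) := by
  have h1 := Eqv.comp h (fun o : Option (Option α) => match o with
    | none => t
    | some none => t
    | some (some s) => s)
  unfold TT
  convert h1 using 1
  · funext o
    rcases o with _ | _ | s <;> rfl
  · funext o
    rcases o with _ | _ | s <;> rfl

theorem TT.adj (hQ : WL E m Q) (hm : 2 ≤ m) : Inv2 (TT Q α) (fun a => E a.1) := by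
  intro a u w a' u' w' h
  exact Eqv.adj_iff hQ hm h (some none) none

theorem TT.adj_base (hQ : WL E m Q) (hm : 2 ≤ m) {a : ι × (α → V)} {u w : V} {a' : ι × (α → V)}
    {u' w' : V} (h : TT Q α a u w a' u' w') (t : α) :
    E a.1 w (a.2 t) ↔ E a'.1 w' (a'.2 t) :=
  Eqv.adj_iff hQ hm h none (some (some t))

theorem TT.rep (hQ : WL E m Q) (hm : 2 ≤ m) {K : ℕ} (π : Idx K → α) {a : ι × (α → V)} {u w : V}
    {a' : ι × (α → V)} {u' w' : V} (h : TT Q α a u w a' u' w') (l : Fin K) :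
    Rep (E a.1) (fun t => a.2 (π t)) w l ↔ Rep (E a'.1) (fun t => a'.2 (π t)) w' l :=
  ind_rep hQ hm h (fun t => some (some (π t))) none l

theorem TT.arr (hQ : WL E m Q) (hm : 2 ≤ m) {K : ℕ} (π : Idx K → α) :
    Inv2 (TT Q α) (fun a => Arr (E a.1) (fun t => a.2 (π t))) := by
  intro a u w a' u' w' h
  exact ind_arr hQ hm h (fun t => some (some (π t))) (some none) none

end TT

section Step

variable {ι V : Type} {E : ι → V → V → Prop} {m : ℕ}
  {Q : ι → (Fin m → V) → ι → (Fin m → V) → Prop} {K : ℕ}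

theorem card_bas (K : ℕ) : Fintype.card (Bas K) = 3 * (K + K * K) + 1 := by
  simp [Bas, Idx]
  ring

/-- the side given by three embedded parameters -/
theorem side_of (hQ : WL E m Q) (hm : 2 ≤ m) (hEs : ∀ i u w, E i u w ↔ E i w u) {α : Type}
    (π : Idx K → α) :
    Side (TT Q α) (fun a => E a.1) (fun a => Arr (E a.1) (fun t => a.2 (π t)))
      (fun a u l => Rep (E a.1) (fun t => a.2 (π t)) u l)
      (fun a u l => E a.1 u (a.2 (π (Sum.inl l)))) where
  inv_r := TT.arr hQ hm π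
  inv_Rp := fun l a u a' u' h => TT.rep hQ hm π h l
  inv_N := fun l a u a' u' h => TT.adj_base hQ hm h (π (Sum.inl l))
  formula := by
    intro a u w l hne hr hR
    by_contra hcon
    apply hr
    refine ⟨l, hR, Or.inr ⟨hne, ?_⟩⟩
    rwa [hEs a.1 (a.2 (π (Sum.inl l))) w]

/-- the core of the inductive step -/
theorem step_core [Finite V] (hQ : WL E m Q) (hm : 3 * (K + K * K) + 3 < m)
    (hEs : ∀ i u w, E i u w ↔ E i w u) (hEi : ∀ i u, ¬ E i u u) (i j : ι) {X₁ X₂ : Set V}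
    (hd : Disjoint X₁ X₂) (p : Idx K → V) (v : V) {p₁ p₂ : Idx K → V}
    (hp1 : Good (E i) p₁ X₁) (hp2 : Good (E i) p₂ X₂)
    (IH1 : ∀ u ∈ X₁, ∀ j p' v', Eqv Q i (cons p₁ u) j (cons p' v') → IsoOK E i p₁ u j p' v')
    (IH2 : ∀ u ∈ X₂, ∀ j p' v', Eqv Q i (cons p₂ u) j (cons p' v') → IsoOK E i p₂ u j p' v')
    (C : ι × (Bas K → V) → V → Prop) (hC : Inv1 (TT Q (Bas K)) C)
    (hcov : ∀ u, C (i, Sum.elim (cons p v) (Sum.elim p₁ p₂)) u → u ∈ X₁ ∨ u ∈ X₂)
    (m₁ : ∀ u w, u ∈ X₁ → C (i, Sum.elim (cons p v) (Sum.elim p₁ p₂)) u →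
      Scc (Arr (E i) p₁) u w → C (i, Sum.elim (cons p v) (Sum.elim p₁ p₂)) w)
    (m₂ : ∀ u w, u ∈ X₂ → C (i, Sum.elim (cons p v) (Sum.elim p₁ p₂)) u →
      Scc (Arr (E i) p₂) u w → C (i, Sum.elim (cons p v) (Sum.elim p₁ p₂)) w)
    {p' : Idx K → V} {v' : V} (h : Eqv Q i (cons p v) j (cons p' v')) :
    ∃ p₁' p₂' : Idx K → V,
      Eqv Q i (Sum.elim (cons p v) (Sum.elim p₁ p₂) : Bas K → V) j
        (Sum.elim (cons p' v') (Sum.elim p₁' p₂')) ∧
      ∃ f : {u // C (i, Sum.elim (cons p v) (Sum.elim p₁ p₂)) u} ≃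
          {u // C (j, Sum.elim (cons p' v') (Sum.elim p₁' p₂')) u},
        (∀ x y, E i x.1 y.1 ↔ E j (f x).1 (f y).1) ∧
        ∀ x, (((∃ y ∈ X₁, TT Q (Bas K) (i, Sum.elim (cons p v) (Sum.elim p₁ p₂)) y y
              (i, Sum.elim (cons p v) (Sum.elim p₁ p₂)) x.1 x.1) ∧
            (∃ y ∈ X₁, TT Q (Bas K) (i, Sum.elim (cons p v) (Sum.elim p₁ p₂)) y y
              (j, Sum.elim (cons p' v') (Sum.elim p₁' p₂')) (f x).1 (f x).1) ∧
            (∀ l, Rep (E i) p₁ x.1 l ↔ Rep (E j) p₁' (f x).1 l) ∧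
            (∀ l, Rep (E i) p₁ (p₁ (Sum.inl l)) l →
              (E i x.1 (p₁ (Sum.inl l)) ↔ E j (f x).1 (p₁' (Sum.inl l))))) ∨
          ((∃ y ∈ X₂, TT Q (Bas K) (i, Sum.elim (cons p v) (Sum.elim p₁ p₂)) y y
              (i, Sum.elim (cons p v) (Sum.elim p₁ p₂)) x.1 x.1) ∧
            (∃ y ∈ X₂, TT Q (Bas K) (i, Sum.elim (cons p v) (Sum.elim p₁ p₂)) y y
              (j, Sum.elim (cons p' v') (Sum.elim p₁' p₂')) (f x).1 (f x).1) ∧
            (∀ l, Rep (E i) p₂ x.1 l ↔ Rep (E j) p₂' (f x).1 l) ∧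
            (∀ l, Rep (E i) p₂ (p₂ (Sum.inl l)) l →
              (E i x.1 (p₂ (Sum.inl l)) ↔ E j (f x).1 (p₂' (Sum.inl l)))))) := by
  have hm2 : 2 ≤ m := by omega
  obtain ⟨z', hz'⟩ := Eqv.extend hQ (α := Option (Idx K)) (β := Idx K ⊕ Idx K)
    (by simp [Idx]; omega) h (Sum.elim p₁ p₂)
  obtain ⟨p₁', p₂', rfl⟩ : ∃ p₁' p₂' : Idx K → V, z' = Sum.elim p₁' p₂' :=
    ⟨fun t => z' (Sum.inl t), fun t => z' (Sum.inr t), by funext t; rcases t with t | t <;> rfl⟩
  refine ⟨p₁', p₂', hz', ?_⟩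
  have hT : CC (TT Q (Bas K)) := cc_of_wl hQ (α := Bas K) (by rw [card_bas]; omega)
  have hz := TT.of_eqv hz' (Sum.inl none)
  have s1 := side_of (E := E) (K := K) hQ hm2 hEs (α := Bas K) (fun t => Sum.inr (Sum.inl t))
  have s2 := side_of (E := E) (K := K) hQ hm2 hEs (α := Bas K) (fun t => Sum.inr (Sum.inr t))
  have key := assemble hT (E := fun a => E a.1) (TT.adj hQ hm2) (fun a => hEs a.1)
    (fun a => hEi a.1) hC s1 s2 hz hd hcov
    (fun u w hu hr => hp1.closed hu hr) (fun u w hu hr => hp2.closed hu hr) m₁ m₂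
    (fun u hu => (hp1.rep u hu).imp fun l hl => hl.1)
    (fun u hu => (hp2.rep u hu).imp fun l hl => hl.1)
    (ess₁ := fun l => Rep (E i) p₁ (p₁ (Sum.inl l)) l)
    (ess₂ := fun l => Rep (E i) p₂ (p₂ (Sum.inl l)) l)
    (fun u hu l hl => hp1.ess hu hl) (fun u hu l hl => hp2.ess hu hl)
    (M := fun l₂ l => E i (p₂ (Sum.inl l₂)) (p₁ (Sum.inl l)))
    (by
      intro w hw l₂ l _ hl
      obtain ⟨l', hl', hrow⟩ := hp2.rep w hw
      obtain rfl := Rep.unique hl hl'
      exact hrow _ fun hmem => Set.disjoint_left.mp hd (hp1.inl_mem l) hmem)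
    (by
      intro u hu _ b u' hT'
      exact IH1 u hu b.1 (fun t => b.2 (Sum.inr (Sum.inl t))) u'
        (TT.sub hT' (fun t => Sum.inr (Sum.inl t))))
    (by
      intro u hu _ b u' hT'
      exact IH2 u hu b.1 (fun t => b.2 (Sum.inr (Sum.inr t))) u'
        (TT.sub hT' (fun t => Sum.inr (Sum.inr t))))
  exact key

/-- colours over the parent parameter from colours over the parameter of a side -/
theorem transfer (hQ : WL E m Q) (hm2 : 2 ≤ m) {i j : ι}
    {X X₁ : Set V} (hsub : X₁ ⊆ X) {α : Type} {a a' : ι × (α → V)} (π π₁ : Idx K → α)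
    {p p₁ : Idx K → V} (hpa : a = (i, a.2)) (haj : a' = (j, a'.2))
    (hp : (fun t => a.2 (π t)) = p) (hp₁ : (fun t => a.2 (π₁ t)) = p₁)
    (hgp : Good (E i) p X) (hg1 : Good (E i) p₁ X₁)
    (hnice : ∀ l, p (Sum.inl l) ∈ X₁ → Rep (E i) p (p (Sum.inl l)) l →
        ∃ l₁, p₁ (Sum.inl l₁) = p (Sum.inl l) ∧ Rep (E i) p₁ (p₁ (Sum.inl l₁)) l₁)
    (heqv : Eqv Q i a.2 j a'.2) {x x' : V}
    (h1 : ∃ y ∈ X₁, TT Q α a y y a x x) (h2 : ∃ y ∈ X₁, TT Q α a y y a' x' x')
    (hR : ∀ l, Rep (E i) p₁ x l ↔ Rep (E j) (fun t => a'.2 (π₁ t)) x' l)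
    (hN : ∀ l, Rep (E i) p₁ (p₁ (Sum.inl l)) l →
      (E i x (p₁ (Sum.inl l)) ↔ E j x' (a'.2 (π₁ (Sum.inl l))))) :
    (∀ l, Rep (E i) p x l ↔ Rep (E j) (fun t => a'.2 (π t)) x' l) ∧
    (∀ l, Rep (E i) p (p (Sum.inl l)) l →
      (E i x (p (Sum.inl l)) ↔ E j x' (a'.2 (π (Sum.inl l))))) := by
  obtain ⟨ai, ax⟩ := a
  obtain ⟨aj, ax'⟩ := a'
  simp only [Prod.mk.injEq, and_true] at hpa haj
  subst hpa haj
  simp only at hp hp₁ hR hN heqv
  subst hp hp₁
  obtain ⟨y, hy, hT1⟩ := h1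
  obtain ⟨y', hy', hT2⟩ := h2
  obtain ⟨l₁, hl₁, hrow⟩ := hg1.rep y hy
  have hx₁ : Rep (E ai) (fun t => ax (π₁ t)) x l₁ := (TT.rep hQ hm2 π₁ hT1 l₁).mp hl₁
  have hx₁' := (hR l₁).mp hx₁
  have hy'₁ : Rep (E ai) (fun t => ax (π₁ t)) y' l₁ := (TT.rep hQ hm2 π₁ hT2 l₁).mpr hx₁'
  obtain ⟨l₂, hl₂, hrow'⟩ := hg1.rep y' hy'
  obtain rfl := Rep.unique hy'₁ hl₂
  have hyy : ∀ w, w ∉ X₁ → (E ai y w ↔ E ai y' w) := fun w hw =>
    (hrow w hw).trans (hrow' w hw).symm
  constructor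
  · intro l
    rw [← TT.rep hQ hm2 π hT1 l]
    refine Iff.trans ?_ (TT.rep hQ hm2 π hT2 l)
    have hag : ∀ l', Agr (E ai) (fun t => ax (π t)) y l' ↔ Agr (E ai) (fun t => ax (π t)) y' l' := by
      intro l'
      unfold Agr
      refine forall_congr' fun t => ?_
      rw [hyy _ fun hm => hgp.inr_not_mem t (hsub hm)]
    unfold Rep
    simp only [hag]
  · intro l hl
    by_cases hmem : ax (π (Sum.inl l)) ∈ X₁
    · obtain ⟨l₃, h3, h4⟩ := hnice l hmem hl
      have h5 := hN l₃ h4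
      have h6 : ax' (π₁ (Sum.inl l₃)) = ax' (π (Sum.inl l)) :=
        (Eqv.eq_iff hQ hm2 heqv _ _).mp h3
      rw [h6] at h5
      rw [← h3]
      exact h5
    · have h3 := TT.adj_base (E := E) hQ hm2 hT1 (π (Sum.inl l))
      have h4 := TT.adj_base (E := E) hQ hm2 hT2 (π (Sum.inl l))
      exact h3.symm.trans ((hyy _ hmem).trans h4)

theorem Dec.nonempty {k : ℕ} {R : V → V → Prop} {X : Set V} (h : Dec k R X) : X.Nonempty := by
  induction h with
  | leaf v => exact ⟨v, rfl⟩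
  | union X₁ X₂ _ _ _ _ _ ih _ => exact ih.mono Set.subset_union_left

theorem main_ind [Finite V] (hQ : WL E m Q) (hm : 3 * (K + K * K) + 3 < m)
    (hEs : ∀ i u w, E i u w ↔ E i w u) (hEi : ∀ i u, ¬ E i u u) (i : ι) {X : Set V}
    (hX : Dec K (E i) X) : ∀ p : Idx K → V, Good (E i) p X → ∀ v ∈ X, ∀ j p' v',
      Eqv Q i (cons p v) j (cons p' v') → IsoOK E i p v j p' v' := by
  have hm2 : 2 ≤ m := by omega
  induction hX with
  | leaf w =>
    intro p hp v hv j p' v' h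
    obtain rfl : v = w := hv
    have hT : CC (TT Q (Option (Idx K))) := cc_of_wl hQ (α := Option (Idx K))
      (by simp [Idx]; omega)
    have hz := TT.of_eqv h none
    obtain ⟨e, he⟩ := hT.ext hz
    have hscc : Inv2 (TT Q (Option (Idx K))) (fun a => Scc (Arr (E a.1) (fun t => a.2 (some t)))) :=
      hT.inv_scc (TT.arr (E := E) hQ hm2 (K := K) (fun t => some t))
    have hs : ∀ z, Scc (Arr (E i) p) v z ↔ Scc (Arr (E j) p') v' (e z) :=
      fun z => hscc (he z).1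
    have hv0 : ∀ z, Scc (Arr (E i) p) v z → z = v := by
      intro z hz
      have h1 : ∀ z, ReflTransGen (Arr (E i) p) v z → z ∈ ({v} : Set V) := by
        intro z hz
        induction hz with
        | refl => rfl
        | tail _ hr ih => exact hp.closed ih hr
      exact h1 z hz.1
    have hev : e v = v' := by
      have h1 := hT.eq_iff (he v).1
      exact (h1.mp rfl).symm
    refine ⟨e.subtypeEquiv hs, ?_, ?_, ?_⟩
    · rintro ⟨x, hx⟩ ⟨y, hy⟩
      obtain rfl := hv0 x hx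
      obtain rfl := hv0 y hy
      simp only [Equiv.subtypeEquiv_apply, hev]
      exact iff_of_false (hEi _ _) (hEi _ _)
    · rintro ⟨x, hx⟩ l
      obtain rfl := hv0 x hx
      simp only [Equiv.subtypeEquiv_apply, hev]
      exact ind_rep hQ hm2 h (fun t => some t) none l
    · rintro ⟨x, hx⟩ l _
      obtain rfl := hv0 x hx
      simp only [Equiv.subtypeEquiv_apply, hev]
      exact Eqv.adj_iff hQ hm2 h none (some (Sum.inl l))
  | union X₁ X₂ h1 h2 hd hr1 hr2 ih1 ih2 =>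
    intro p hp v hv j p' v' h
    obtain ⟨p₁, hp₁, hm₁, hn₁⟩ := exists_good_nice (hEs i) (hEi i) hp hv
      Set.subset_union_left h1.nonempty hr1
    obtain ⟨p₂, hp₂, hm₂, hn₂⟩ := exists_good_nice (hEs i) (hEi i) hp hv
      Set.subset_union_right h2.nonempty hr2
    have hT : CC (TT Q (Bas K)) := cc_of_wl hQ (α := Bas K) (by rw [card_bas]; omega)
    have hscc : Inv2 (TT Q (Bas K))
        (fun a => Scc (Arr (E a.1) (fun t => a.2 (Sum.inl (some t))))) :=
      hT.inv_scc (TT.arr (E := E) hQ hm2 (K := K) (fun t => Sum.inl (some t)))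
    have hC : Inv1 (TT Q (Bas K)) (fun a u =>
        Scc (Arr (E a.1) (fun t => a.2 (Sum.inl (some t)))) (a.2 (Sum.inl none)) u) := by
      intro a u a' u' hau
      exact hscc (hau.left (Sum.inl none))
    obtain ⟨p₁', p₂', heqv, f, hf, hcase⟩ := step_core hQ hm hEs hEi i j hd p v hp₁ hp₂
      (ih1 p₁ hp₁) (ih2 p₂ hp₂) _ hC
      (by
        intro u hu
        have h3 : ∀ z, ReflTransGen (Arr (E i) p) v z → z ∈ X₁ ∪ X₂ := by
          intro z hz
          induction hz with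
          | refl => exact hv
          | tail _ hr ih => exact hp.closed ih hr
        exact h3 u hu.1)
      hm₁ hm₂ h
    refine ⟨f, hf, ?_⟩
    have hall : ∀ x, (∀ l, Rep (E i) p x.1 l ↔ Rep (E j) p' (f x).1 l) ∧
        (∀ l, Rep (E i) p (p (Sum.inl l)) l →
          (E i x.1 (p (Sum.inl l)) ↔ E j (f x).1 (p' (Sum.inl l)))) := by
      intro x
      rcases hcase x with ⟨c1, c2, c3, c4⟩ | ⟨c1, c2, c3, c4⟩
      · exact transfer (a := (i, Sum.elim (cons p v) (Sum.elim p₁ p₂)))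
          (a' := (j, Sum.elim (cons p' v') (Sum.elim p₁' p₂'))) hQ hm2
          (Set.subset_union_left (t := X₂)) (fun t => Sum.inl (some t))
          (fun t => Sum.inr (Sum.inl t)) rfl rfl rfl rfl hp hp₁ hn₁ heqv c1 c2 c3 c4
      · exact transfer (a := (i, Sum.elim (cons p v) (Sum.elim p₁ p₂)))
          (a' := (j, Sum.elim (cons p' v') (Sum.elim p₁' p₂'))) hQ hm2
          (Set.subset_union_right (s := X₁)) (fun t => Sum.inl (some t))
          (fun t => Sum.inr (Sum.inr t)) rfl rfl rfl rfl hp hp₂ hn₂ heqv c1 c2 c3 c4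
    exact ⟨fun x => (hall x).1, fun x => (hall x).2⟩

theorem iso_of_wl [Finite V] (hQ : WL E m Q) (hm : 3 * (K + K * K) + 3 < m)
    (hEs : ∀ i u w, E i u w ↔ E i w u) (hEi : ∀ i u, ¬ E i u u) (i j : ι)
    (hX : Dec K (E i) Set.univ) {v v' : V} (h : Q i (fun _ => v) j (fun _ => v')) :
    ∃ f : V ≃ V, ∀ x y, E i x y ↔ E j (f x) (f y) := by
  have hm2 : 2 ≤ m := by omega
  generalize hU : (Set.univ : Set V) = U at hX
  cases hX with
  | leaf w =>
    have hw : ∀ x : V, x = w := fun x => by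
      have h1 : x ∈ (Set.univ : Set V) := Set.mem_univ x
      rw [hU] at h1
      exact h1
    refine ⟨Equiv.refl V, fun x y => ?_⟩
    rw [hw x, hw y]
    exact iff_of_false (hEi _ _) (hEi _ _)
  | union X₁ X₂ h1 h2 hd hr1 hr2 =>
    have hx1 : X₁ ≠ Set.univ := by
      intro hx
      obtain ⟨w, hw⟩ := h2.nonempty
      exact Set.disjoint_left.mp hd (hx ▸ Set.mem_univ w) hw
    have hx2 : X₂ ≠ Set.univ := by
      intro hx
      obtain ⟨w, hw⟩ := h1.nonempty
      exact Set.disjoint_left.mp hd hw (hx ▸ Set.mem_univ w)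
    obtain ⟨p₁, hp₁⟩ := exists_good_root (hEs i) (hEi i) hx1 h1.nonempty hr1
    obtain ⟨p₂, hp₂⟩ := exists_good_root (hEs i) (hEi i) hx2 h2.nonempty hr2
    have heqv0 : Eqv Q i (cons (fun _ : Idx K => v) v) j (cons (fun _ : Idx K => v') v') := by
      intro σ
      convert h using 1
      · funext t
        simp only [Function.comp]
        rcases σ t with _ | s <;> rfl
      · funext t
        simp only [Function.comp]
        rcases σ t with _ | s <;> rfl
    obtain ⟨p₁', p₂', heqv, f, hf, -⟩ := step_core hQ hm hEs hEi i j hd (fun _ => v) v hp₁ hp₂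
      (main_ind hQ hm hEs hEi i h1 p₁ hp₁) (main_ind hQ hm hEs hEi i h2 p₂ hp₂)
      (fun _ _ => True) (fun _ => Iff.rfl)
      (fun u _ => by
        have h3 : u ∈ (Set.univ : Set V) := Set.mem_univ u
        rw [hU] at h3
        exact h3)
      (fun _ _ _ _ _ => trivial) (fun _ _ _ _ _ => trivial) heqv0
    refine ⟨(Equiv.subtypeUnivEquiv fun _ => trivial).symm.trans
      (f.trans (Equiv.subtypeUnivEquiv fun _ => trivial)), fun x y => ?_⟩
    exact hf ⟨x, trivial⟩ ⟨y, trivial⟩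

end Step

end Pool.Agent.H603GI
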