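import Pool.Agent.H603GI.Decomp
import Pool.Agent.Results.MP_563ce7_co.BoundedCliqueWidth

/-!
# Decompositions of `(q, q - 2)`-graphs
-/

namespace Pool.Agent.H603GI

namespace Decomp

open Pool.Agent.Results.MP_563ce7_co.BoundedCliqueWidth

theorem dec2_of_built' {k : ℕ} {V : Type} {G : SimpleGraph V} {l : V → Fin k}
    (h : Built k V G l) : IsEmpty V ∨ Dec2 k G.Adj l Set.univ := by
  induction h with
  | empty => exact Or.inl inferInstance
  | vertex i =>
    right
    have : (Set.univ : Set Unit) = {()} := by ext x; simp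
    rw [this]
    exact Dec2.leaf ()
  | union V₁ V₂ G₁ G₂ l₁ l₂ _ _ ih1 ih2 =>
    have hu : (Set.univ : Set (V₁ ⊕ V₂)) = Sum.inl '' Set.univ ∪ Sum.inr '' Set.univ := by
      ext x
      cases x <;> simp
    have a11 : ∀ u v : V₁, (G₁.map Function.Embedding.inl ⊔ G₂.map Function.Embedding.inr :
        SimpleGraph (V₁ ⊕ V₂)).Adj (Sum.inl u) (Sum.inl v) ↔ G₁.Adj u v := by
      intro u v
      rw [SimpleGraph.sup_adj, SimpleGraph.map_adj, SimpleGraph.map_adj]
      constructor
      · rintro (⟨x, y, h, hx, hy⟩ | ⟨x, y, h, hx, hy⟩)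
        · obtain rfl := Sum.inl_injective hx
          obtain rfl := Sum.inl_injective hy
          exact h
        · exact absurd hx (by simp)
      · intro h
        exact Or.inl ⟨u, v, h, rfl, rfl⟩
    have a22 : ∀ u v : V₂, (G₁.map Function.Embedding.inl ⊔ G₂.map Function.Embedding.inr :
        SimpleGraph (V₁ ⊕ V₂)).Adj (Sum.inr u) (Sum.inr v) ↔ G₂.Adj u v := by
      intro u v
      rw [SimpleGraph.sup_adj, SimpleGraph.map_adj, SimpleGraph.map_adj]
      constructor
      · rintro (⟨x, y, h, hx, hy⟩ | ⟨x, y, h, hx, hy⟩)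
        · exact absurd hx (by simp)
        · obtain rfl := Sum.inr_injective hx
          obtain rfl := Sum.inr_injective hy
          exact h
      · intro h
        exact Or.inr ⟨u, v, h, rfl, rfl⟩
    have a12 : ∀ (u : V₁) (v : V₂), ¬ (G₁.map Function.Embedding.inl ⊔
        G₂.map Function.Embedding.inr : SimpleGraph (V₁ ⊕ V₂)).Adj (Sum.inl u) (Sum.inr v) := by
      intro u v
      rw [SimpleGraph.sup_adj, SimpleGraph.map_adj, SimpleGraph.map_adj]
      rintro (⟨x, y, h, hx, hy⟩ | ⟨x, y, h, hx, hy⟩)
      · exact absurd hy (by simp)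
      · exact absurd hx (by simp)
    have e1 : Dec2 k G₁.Adj l₁ Set.univ → Dec2 k (G₁.map Function.Embedding.inl ⊔
        G₂.map Function.Embedding.inr : SimpleGraph (V₁ ⊕ V₂)).Adj (Sum.elim l₁ l₂)
        (Sum.inl '' (Set.univ : Set V₁)) := by
      intro d1
      refine Dec2.image Sum.inl Sum.inl_injective (fun u => rfl) a11 ?_ d1
      rintro u (w | w) hw
      · exact absurd ⟨w, rfl⟩ hw
      · exact a12 u w
    have e2 : Dec2 k G₂.Adj l₂ Set.univ → Dec2 k (G₁.map Function.Embedding.inl ⊔
        G₂.map Function.Embedding.inr : SimpleGraph (V₁ ⊕ V₂)).Adj (Sum.elim l₁ l₂)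
        (Sum.inr '' (Set.univ : Set V₂)) := by
      intro d2
      refine Dec2.image Sum.inr Sum.inr_injective (fun u => rfl) a22 ?_ d2
      rintro u (w | w) hw
      · exact fun h => a12 w u h.symm
      · exact absurd ⟨w, rfl⟩ hw
    rw [hu]
    rcases ih1 with h1 | d1
    · rcases ih2 with h2 | d2
      · left
        exact ⟨fun x => by rcases x with x | x; exacts [h1.false x, h2.false x]⟩
      · right
        rw [Set.eq_empty_of_isEmpty (Set.univ : Set V₁), Set.image_empty, Set.empty_union]
        exact e2 d2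
    · rcases ih2 with h2 | d2
      · right
        rw [Set.eq_empty_of_isEmpty (Set.univ : Set V₂), Set.image_empty, Set.union_empty]
        exact e1 d1
      · right
        refine Dec2.union _ _ (e1 d1) (e2 d2) ?_ ?_ ?_
        · rw [Set.disjoint_left]
          rintro _ ⟨u, -, rfl⟩ ⟨v, -, h⟩
          exact Sum.inr_ne_inl h
        · refine ⟨Sum.elim l₁ l₂, ?_⟩
          rintro _ ⟨u, -, rfl⟩ _ ⟨v, -, rfl⟩ huv
          refine ⟨huv, ?_⟩
          rintro (w | w) hw
          · exact absurd ⟨w, trivial, rfl⟩ hw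
          · exact iff_of_false (a12 u w) (a12 v w)
        · refine ⟨Sum.elim l₁ l₂, ?_⟩
          rintro _ ⟨u, -, rfl⟩ _ ⟨v, -, rfl⟩ huv
          refine ⟨huv, ?_⟩
          rintro (w | w) hw
          · exact iff_of_false (fun h => a12 w u h.symm) (fun h => a12 w v h.symm)
          · exact absurd ⟨w, trivial, rfl⟩ hw
  | rename V V' G l e _ ih =>
    rcases ih with h | d
    · exact Or.inl (e.symm.isEmpty)
    · right
      have h1 := Dec2.image (E' := (G.map e.toEmbedding).Adj) (l' := l ∘ e.symm) e e.injective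
        (fun u => by simp) (fun u v => by
          rw [SimpleGraph.map_adj]
          constructor
          · rintro ⟨x, y, h, hx, hy⟩
            obtain rfl := e.injective hx
            obtain rfl := e.injective hy
            exact h
          · intro h
            exact ⟨u, v, h, rfl, rfl⟩)
        (fun u w hw => absurd ⟨e.symm w, by simp⟩ hw) d
      rwa [Set.image_univ, e.surjective.range_eq] at h1
  | relabel V G l i j _ ih =>
    refine ih.imp id fun d => Dec2.change (fun u v h => ?_) (fun X u _ v _ _ w _ h => h) d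
    rw [h]
  | join V G l i j hij _ ih =>
    refine ih.imp id fun d => Dec2.change (fun u v h => h) ?_ d
    intro X u hu v hv huv w hw h
    have huw : u ≠ w := fun h => hw (h ▸ hu)
    have hvw : v ≠ w := fun h => hw (h ▸ hv)
    rw [SimpleGraph.sup_adj, SimpleGraph.sup_adj, SimpleGraph.fromRel_adj,
      SimpleGraph.fromRel_adj, h, huv]
    simp [huw, hvw]

end Decomp

open Pool.Agent.Results.MP_563ce7_co.BoundedCliqueWidth in
/-- `(q, q - 2)`-graphs have decompositions with a bounded number of types. -/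
theorem dec_of_qq (q : ℕ) (hq : 8 ≤ q) : ∃ k : ℕ, ∀ (V : Type) [Finite V] (G : SimpleGraph V),
    IsQT q (q - 2) G → IsEmpty V ∨ Dec k G.Adj Set.univ := by
  obtain ⟨k, hk⟩ := result q hq
  refine ⟨k, fun V _ G hG => ?_⟩
  have : Fintype V := Fintype.ofFinite V
  obtain ⟨l, hl⟩ := hk V G hG
  exact (Decomp.dec2_of_built' hl).imp id Decomp.Dec2.dec

end Pool.Agent.H603GI
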